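import Mathlib

/-!
# Hard-core gases: definitions

Finite hard-core gases on a set of points of equal weight, and the hard-sphere gas in a cube.
-/

set_option autoImplicit false

open MeasureTheory Set Filter Topology

namespace Pool.Agent.H288.HS

/-! ## Finite hard-core gases -/

section finite

variable {V : Type}

/-- A set of points no two (different) points of which exclude each other. -/
def Indep (N : V → V → Prop) (I : Finset V) : Prop :=
  ∀ x ∈ I, ∀ y ∈ I, x ≠ y → ¬ N x y

open Classical in
/-- The independent subsets of `A`. -/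
noncomputable def ind (N : V → V → Prop) (A : Finset V) : Finset (Finset V) :=
  A.powerset.filter (fun I => Indep N I)

/-- The partition function of the region `A`, points of weight `w`, activity `l`. -/
noncomputable def Z (N : V → V → Prop) (w : ℝ) (A : Finset V) (l : ℂ) : ℂ :=
  ∑ I ∈ ind N A, (l * (w : ℂ)) ^ I.card

open Classical in
/-- The points of `A` which are excluded by `x`. -/
noncomputable def nb (N : V → V → Prop) (A : Finset V) (x : V) : Finset V :=
  A.filter (fun y => N x y)

open Classical in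
/-- The points of `A` which are not excluded by `x`. -/
noncomputable def rem (N : V → V → Prop) (A : Finset V) (x : V) : Finset V :=
  A.filter (fun y => ¬ N x y)

/-- The ratio `Z(A \ N(x)) / Z(A)`. -/
noncomputable def W (N : V → V → Prop) (w : ℝ) (A : Finset V) (x : V) (l : ℂ) : ℂ :=
  Z N w (rem N A x) l / Z N w A l

/-- The logarithmic derivative of the ratio `W`. -/
noncomputable def DD (N : V → V → Prop) (w : ℝ) (A : Finset V) (x : V) (l : ℂ) : ℂ :=
  logDeriv (Z N w (rem N A x)) l - logDeriv (Z N w A) l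

variable {r : ℕ}

open Classical in
/-- The points of `A` excluded by `x` of colour `k`. -/
noncomputable def cl (N : V → V → Prop) (col : V → V → Fin r) (A : Finset V) (x : V) (k : ℕ) :
    Finset V :=
  A.filter (fun z => N x z ∧ (col x z : ℕ) = k)

open Classical in
/-- `A` without the points excluded by `x` of the colours `0, ..., k - 1`. -/
noncomputable def lev (N : V → V → Prop) (col : V → V → Fin r) (A : Finset V) (x : V) (k : ℕ) :
    Finset V :=
  A.filter (fun z => ¬ (N x z ∧ (col x z : ℕ) < k))

/-- The sum `S_k`: the expected number of points of the clique `k` divided by the probability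
that there is none, in the region `lev k`. -/
noncomputable def SS (N : V → V → Prop) (w : ℝ) (col : V → V → Fin r) (A : Finset V) (x : V)
    (k : ℕ) (l : ℂ) : ℂ :=
  l * w * ∑ y ∈ cl N col A x k, W N w (lev N col A x (k + 1)) y l

/-- The derivative of `S_k`. -/
noncomputable def SD (N : V → V → Prop) (w : ℝ) (col : V → V → Fin r) (A : Finset V) (x : V)
    (k : ℕ) (l : ℂ) : ℂ :=
  w * ∑ y ∈ cl N col A x k, W N w (lev N col A x (k + 1)) y l *
    (1 + l * DD N w (lev N col A x (k + 1)) y l)

open Classical in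
/-- A gas whose exclusion neighbourhoods are covered by `r` cliques: the cliques of `x` are the
sets of the excluded points `z` of a given colour `col x z`. The numbers `C` and `a` bound the
measure of the neighbourhoods and the growth in two steps. -/
structure Geo (N : V → V → Prop) (w : ℝ) (r : ℕ) (col : V → V → Fin r) (C a : ℝ) : Prop where
  w_pos : 0 < w
  refl : ∀ x, N x x
  symm : ∀ x y, N x y → N y x
  clique : ∀ x y z, N x y → N x z → col x y = col x z → N y z
  vol : ∀ (A : Finset V) (x : V), w * ((nb N A x).card : ℝ) ≤ C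
  step : ∀ (A : Finset V) (x y : V), N x y →
    w * (((nb N A y).card : ℝ) - ((A.filter (fun z => N x z ∧ N y z)).card : ℝ) / 2 -
      ((A.filter (fun z => N x z ∧ col x z = col x y)).card : ℝ) / 2) ≤ a

/-- The constant of the contraction with `r` cliques. -/
noncomputable def GG (r : ℕ) : ℝ :=
  (r : ℝ) / (r + 1) * (((r : ℝ) + 1) / (r + 2)) ^ (r + 2)

/-- The activities at distance less than `ε` from the interval `[0, l₁]`. -/
def Om (l₁ ε : ℝ) : Set ℂ := {l | ∃ s : ℝ, 0 ≤ s ∧ s ≤ l₁ ∧ ‖l - (s : ℂ)‖ < ε}

end finite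

/-! ## Hard spheres in a cube -/

/-- Configurations of `N` points of the cube `[0, L]^d` at mutual distances at least `R`. -/
def Conf (N d : ℕ) (R L : ℝ) : Set (Fin N → Fin d → ℝ) :=
  {x | (∀ i k, x i k ∈ Set.Icc (0 : ℝ) L) ∧
    ∀ i j, i ≠ j → R ^ 2 ≤ ∑ k, (x i k - x j k) ^ 2}

/-- The partition function `Z(Λ, N)` of `N` hard spheres of radius `a` in the cube of side `L`. -/
noncomputable def Zpart (d : ℕ) (a L : ℝ) (N : ℕ) : ℝ :=
  ((N.factorial : ℝ))⁻¹ * (volume (Conf N d (2 * a) L)).toReal

/-- The thermodynamic limit at the density `ρ`: pairs `(N, L)` with `N → ∞`, `L → ∞`,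
`N / L ^ d → ρ`. -/
noncomputable def thermo (d : ℕ) (ρ : ℝ) : Filter (ℕ × ℝ) :=
  (atTop ×ˢ atTop) ⊓ comap (fun q : ℕ × ℝ => (q.1 : ℝ) / q.2 ^ d) (𝓝 ρ)

/-- `f` is the free energy per particle at the density `ρ`: `f = - lim N⁻¹ log Z(Λ, N)`. -/
def IsFreeEnergy (d : ℕ) (a ρ f : ℝ) : Prop :=
  (∀ᶠ q in thermo d ρ, 0 < Zpart d a q.2 q.1) ∧
    Tendsto (fun q : ℕ × ℝ => -(Real.log (Zpart d a q.2 q.1)) / q.1) (thermo d ρ) (𝓝 f)

/-- The grand canonical partition function of the cube of side `L` at the activity `l`. -/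
noncomputable def Grand (d : ℕ) (a L l : ℝ) : ℝ := ∑' N : ℕ, Zpart d a L N * l ^ N

/-- The volume of the ball of radius `2a`, the excluded volume. -/
noncomputable def exclVol (d : ℕ) (a : ℝ) : ℝ :=
  volume.real (Metric.ball (0 : EuclideanSpace ℝ (Fin d)) (2 * a))

/-- The exclusion relation of the integer points of `ℤ^d` at the scale `n`. -/
def NB (d : ℕ) (R : ℝ) (n : ℕ) (x y : Fin d → ℤ) : Prop :=
  ∑ k, ((x k : ℝ) - (y k : ℝ)) ^ 2 < (n * R) ^ 2

/-- The weight of an integer point at the scale `n`. -/
noncomputable def wt (d n : ℕ) : ℝ := 1 / (n : ℝ) ^ d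

/-- The integer points of the cube `[0, n L]^d`. -/
noncomputable def GB (d : ℕ) (L : ℝ) (n : ℕ) : Finset (Fin d → ℤ) :=
  Fintype.piFinset (fun _ => Finset.Icc (0 : ℤ) ⌊(n : ℝ) * L⌋)

/-- The geometric hypothesis: in the limit of a fine grid the exclusion ball of radius `R` is
covered by `r` cliques, its volume is at most `C` and the two-step growth is at most `a`. -/
def GeoLim (d : ℕ) (R : ℝ) (r : ℕ) (C a : ℝ) : Prop :=
  ∀ δ : ℝ, 0 < δ → ∀ᶠ n : ℕ in atTop, ∃ col : (Fin d → ℤ) → (Fin d → ℤ) → Fin r,
    Geo (NB d R n) (wt d n) r col (C + δ) (a + δ)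

end Pool.Agent.H288.HS
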