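import Pool.Agent.H288.HS.Main

/-!
# Hard spheres: the three cases
-/

set_option autoImplicit false

open MeasureTheory Set Filter Topology

namespace Pool.Agent.H288.HS

/-- All the statements. -/
structure AllS : Prop where
  bv : S_BV
  fam : S_FAM
  free : S_FREE
  press : S_PRESS
  ana : S_ANA
  mono : S_MONO
  inv : S_INV
  can : S_CAN
  geo : S_GEOQ
  lensd : S_LENSD
  lens2 : S_LENS2
  lens3 : S_LENS3
  col2 : S_COL2
  col3 : S_COL3
  cold : S_COLD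
  gge : S_GGE

theorem bv_pos (h : S_BV) (d : ℕ) (R : ℝ) (hd : 1 ≤ d) (hR : 0 < R) : 0 < bv d R := by
  obtain ⟨_, h2, h3⟩ := h d R hd hR
  rw [h2]; positivity

theorem fin_d (h : AllS) (d : ℕ) (hd : 1 ≤ d) :
    NoTransition d (Real.exp 1 / (1 - 1 / 2 ^ (d + 1))) := by
  have h2 : (0:ℝ) < 1 - 1 / 2 ^ (d + 1) := by
    have : (1:ℝ) < 2 ^ (d + 1) := one_lt_pow₀ (by norm_num) (by omega)
    rw [sub_pos, div_lt_one (by positivity)]
    exact this
  have ht : 0 < Real.exp 1 / (1 - 1 / 2 ^ (d + 1)) := by positivity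
  -- the number of colours depends on `R`; treat every radius separately
  intro a₀ ha₀
  have hR : 0 < 2 * a₀ := by positivity
  obtain ⟨r, hr, c, hc⟩ := h.cold d (2 * a₀) hd hR
  have hV := bv_pos h.bv d (2 * a₀) hd hR
  have hG : GeoLim d (2 * a₀) r (bv d (2 * a₀))
      (bv d (2 * a₀) - (bv d (2 * a₀) / 2 ^ d + 0) / 2) := by
    refine h.geo d (2 * a₀) r (bv d (2 * a₀) / 2 ^ d) 0 c hd hR (by positivity)
      (h.lensd d (2 * a₀) hd hR) hc ?_
    intro δ hδ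
    filter_upwards with n j
    have h3 : 0 ≤ wt d n := by unfold wt; positivity
    have : 0 ≤ wt d n * ({z : Fin d → ℤ | ∑ k, (z k : ℝ) ^ 2 < (n * (2 * a₀)) ^ 2 ∧
      c n z = j}.ncard : ℝ) := by positivity
    linarith
  have e : bv d (2 * a₀) - (bv d (2 * a₀) / 2 ^ d + 0) / 2 =
      bv d (2 * a₀) * (1 - 1 / 2 ^ (d + 1)) := by
    rw [pow_succ]
    field_simp
    ring
  rw [e] at hG
  obtain ⟨h1, h2', h3⟩ := h.bv d (2 * a₀) hd hR
  have hex : exclVol d a₀ = bv d (2 * a₀) := h1.symm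
  have hz : ∀ L N, Zpart d a₀ L N = zz d (2 * a₀) L N := fun _ _ => rfl
  have hgr : ∀ L l, Grand d a₀ L l = ZM (zz d (2 * a₀)) L 0 l := by
    intro L l
    simp only [Grand, ZM, hz, pow_zero, one_mul]
  obtain ⟨hg0, hg1⟩ := h.gge r hr
  have hta : ∀ l : ℝ, 0 ≤ l → l * bv d (2 * a₀) < Real.exp 1 / (1 - 1 / 2 ^ (d + 1)) →
      l * GG r * (bv d (2 * a₀) * (1 - 1 / 2 ^ (d + 1))) < 1 := by
    intro l hl hlt
    rw [lt_div_iff₀ h2] at hlt
    have h4 : l * GG r * (bv d (2 * a₀) * (1 - 1 / 2 ^ (d + 1))) =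
        GG r * (l * bv d (2 * a₀) * (1 - 1 / 2 ^ (d + 1))) := by ring
    rw [h4]
    have h5 : 0 ≤ l * bv d (2 * a₀) * (1 - 1 / 2 ^ (d + 1)) := by positivity
    calc GG r * (l * bv d (2 * a₀) * (1 - 1 / 2 ^ (d + 1)))
        < GG r * Real.exp 1 := by
          exact mul_lt_mul_of_pos_left hlt hg0
      _ ≤ Real.exp (-1) * Real.exp 1 := by
          exact mul_le_mul_of_nonneg_right hg1 (Real.exp_pos 1).le
      _ = 1 := by rw [← Real.exp_add]; simp
  obtain ⟨⟨p, hp⟩, f, hf⟩ := main_zz h.fam h.free h.press h.ana h.mono h.inv h.can d (2 * a₀) _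
    (bv d (2 * a₀) * (1 - 1 / 2 ^ (d + 1))) r hd hR hr ht (by positivity) hV hG hta
  rw [hex]
  refine ⟨⟨p, ?_⟩, f, ?_⟩
  · simpa only [hgr] using hp
  · intro ρ hρ
    exact ⟨⟨(hf ρ hρ).1.1, (hf ρ hρ).1.2⟩, (hf ρ hρ).2⟩

/-- the threshold in the plane -/
noncomputable def t₂ : ℝ := 7 / 6 * (8 / 7) ^ 8 / (7 / 12 + √3 / (4 * Real.pi))

/-- the threshold in space -/
noncomputable def t₃ : ℝ := 25 / 24 * (26 / 25) ^ 26 * (96 / 79)

theorem bv2 (h : S_BV) (R : ℝ) (hR : 0 < R) : bv 2 R = Real.pi * R ^ 2 := by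
  obtain ⟨h1, _, _⟩ := h 2 R (by norm_num) hR
  rw [h1, Measure.real, EuclideanSpace.volume_ball_fin_two]
  rw [ENNReal.toReal_mul, ENNReal.toReal_pow, ENNReal.toReal_ofReal hR.le]
  simp [mul_comm, Real.pi_pos.le]

theorem bv3 (h : S_BV) (R : ℝ) (hR : 0 < R) : bv 3 R = 4 / 3 * Real.pi * R ^ 3 := by
  obtain ⟨h1, _, _⟩ := h 3 R (by norm_num) hR
  rw [h1, Measure.real, EuclideanSpace.volume_ball_fin_three]
  rw [ENNReal.toReal_mul, ENNReal.toReal_pow, ENNReal.toReal_ofReal hR.le,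
    ENNReal.toReal_ofReal (by positivity)]
  ring

theorem fin_2 (h : AllS) : NoTransition 2 t₂ := by
  have hπ := Real.pi_pos
  have hs : 0 < √(3:ℝ) := Real.sqrt_pos.2 (by norm_num)
  obtain ⟨c, hc1, hc2⟩ := h.col2
  refine main h.bv h.fam h.free h.press h.ana h.mono h.inv h.can 2 t₂ 6 (by norm_num)
    (by norm_num) (by unfold t₂; positivity)
    (fun R => Real.pi * R ^ 2 * (7 / 12 + √3 / (4 * Real.pi))) ?_ ?_ ?_
  · intro R hR
    positivity
  · intro R hR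
    have hq : (0:ℝ) ≤ R ^ 2 * (2 * Real.pi / 3 - √3 / 2) := by
      have h1 : √(3:ℝ) < 2 := by
        rw [Real.sqrt_lt' (by norm_num)]; norm_num
      have h2 := Real.pi_gt_three
      have : 0 < 2 * Real.pi / 3 - √3 / 2 := by linarith
      positivity
    have hG := h.geo 2 R 6 (R ^ 2 * (2 * Real.pi / 3 - √3 / 2)) (Real.pi * R ^ 2 / 6)
      (fun _ => c) (by norm_num) hR hq (h.lens2 R hR)
      (by
        filter_upwards with n u v hu hv huv
        exact hc1 _ u v hu hv huv)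
      (fun δ hδ => hc2 R δ hR hδ)
    have e : bv 2 R - (R ^ 2 * (2 * Real.pi / 3 - √3 / 2) + Real.pi * R ^ 2 / 6) / 2 =
        Real.pi * R ^ 2 * (7 / 12 + √3 / (4 * Real.pi)) := by
      rw [bv2 h.bv R hR]
      field_simp
      ring
    rwa [e] at hG
  · intro R hR l hl hlt
    rw [bv2 h.bv R hR] at hlt
    unfold t₂ at hlt
    rw [lt_div_iff₀ (by positivity)] at hlt
    have hGG : GG 6 = 6 / 7 * (7 / 8) ^ 8 := by
      unfold GG; norm_num
    rw [hGG]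
    have : l * (6 / 7 * (7 / 8) ^ 8) * (Real.pi * R ^ 2 * (7 / 12 + √3 / (4 * Real.pi))) =
        6 / 7 * (7 / 8) ^ 8 * (l * (Real.pi * R ^ 2) * (7 / 12 + √3 / (4 * Real.pi))) := by ring
    rw [this]
    calc 6 / 7 * (7 / 8) ^ 8 * (l * (Real.pi * R ^ 2) * (7 / 12 + √3 / (4 * Real.pi)))
        < 6 / 7 * (7 / 8) ^ 8 * (7 / 6 * (8 / 7) ^ 8) :=
          mul_lt_mul_of_pos_left hlt (by norm_num)
      _ = 1 := by norm_num

theorem fin_3 (h : AllS) : NoTransition 3 t₃ := by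
  have hπ := Real.pi_pos
  obtain ⟨c, hc1, hc2⟩ := h.col3
  refine main h.bv h.fam h.free h.press h.ana h.mono h.inv h.can 3 t₃ 24 (by norm_num)
    (by norm_num) (by unfold t₃; positivity)
    (fun R => 4 / 3 * Real.pi * R ^ 3 * (79 / 96)) ?_ ?_ ?_
  · intro R hR
    positivity
  · intro R hR
    have hG := h.geo 3 R 24 (5 / 12 * Real.pi * R ^ 3) (Real.pi * R ^ 3 / 18)
      (fun _ => c) (by norm_num) hR (by positivity) (h.lens3 R hR)
      (by
        filter_upwards with n u v hu hv huv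
        exact hc1 _ u v hu hv huv)
      (fun δ hδ => hc2 R δ hR hδ)
    have e : bv 3 R - (5 / 12 * Real.pi * R ^ 3 + Real.pi * R ^ 3 / 18) / 2 =
        4 / 3 * Real.pi * R ^ 3 * (79 / 96) := by
      rw [bv3 h.bv R hR]
      ring
    rwa [e] at hG
  · intro R hR l hl hlt
    rw [bv3 h.bv R hR] at hlt
    unfold t₃ at hlt
    have hGG : GG 24 = 24 / 25 * (25 / 26) ^ 26 := by
      unfold GG; norm_num
    rw [hGG]
    have : l * (24 / 25 * (25 / 26) ^ 26) * (4 / 3 * Real.pi * R ^ 3 * (79 / 96)) =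
        24 / 25 * (25 / 26) ^ 26 * (79 / 96) * (l * (4 / 3 * Real.pi * R ^ 3)) := by ring
    rw [this]
    calc 24 / 25 * (25 / 26) ^ 26 * (79 / 96) * (l * (4 / 3 * Real.pi * R ^ 3))
        < 24 / 25 * (25 / 26) ^ 26 * (79 / 96) * (25 / 24 * (26 / 25) ^ 26 * (96 / 79)) :=
          mul_lt_mul_of_pos_left hlt (by norm_num)
      _ = 1 := by norm_num

theorem t₂_gt : 4.7 < t₂ := by
  unfold t₂
  have h1 : √(3:ℝ) < 1.7321 := by
    rw [Real.sqrt_lt' (by norm_num)]; norm_num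
  have h2 : 3.1415 < Real.pi := Real.pi_gt_d4
  have h3 : √3 / (4 * Real.pi) < 1.7321 / (4 * 3.1415) := by
    rw [div_lt_div_iff₀ (by positivity) (by norm_num)]
    nlinarith [Real.sqrt_nonneg (3:ℝ)]
  rw [lt_div_iff₀ (by positivity)]
  calc 4.7 * (7 / 12 + √3 / (4 * Real.pi)) < 4.7 * (7 / 12 + 1.7321 / (4 * 3.1415)) := by
        linarith
    _ < 7 / 6 * (8 / 7) ^ 8 := by norm_num

theorem t₃_gt : 3.5 < t₃ := by
  unfold t₃
  norm_num

end Pool.Agent.H288.HS
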