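import Pool.Agent.H288.HS.Stm2

/-!
# Hard disks: statements of the weighted version

The two-step growth is estimated with a weight `phi x z` on the pairs `(x, z)`, `N x z`; in the
plane `phi = 19/25 + 6/25 |z - x|² / R²`.
-/

set_option autoImplicit false

open MeasureTheory Set Filter Topology

namespace Pool.Agent.H288.HS

/-- The weighted measure of the points of `A` excluded by `x`. -/
noncomputable def OM {V : Type} (N : V → V → Prop) (w : ℝ) (phi : V → V → ℝ) (A : Finset V)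
    (x : V) : ℝ := w * ∑ z ∈ nb N A x, phi x z

open Classical in
/-- A gas whose exclusion neighbourhoods are covered by `r` cliques, weighted version. -/
structure GeoW {V : Type} (N : V → V → Prop) (w : ℝ) (r : ℕ) (col : V → V → Fin r)
    (phi : V → V → ℝ) (C φ₀ ρ : ℝ) : Prop where
  w_pos : 0 < w
  refl : ∀ x, N x x
  symm : ∀ x y, N x y → N y x
  clique : ∀ x y z, N x y → N x z → col x y = col x z → N y z
  phi0 : 0 < φ₀
  phi_ge : ∀ x z, N x z → φ₀ ≤ phi x z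
  phi_le : ∀ x z, N x z → phi x z ≤ 1
  vol : ∀ (A : Finset V) (x : V), w * ((nb N A x).card : ℝ) ≤ C
  step : ∀ (A : Finset V) (x y : V), N x y →
    w * ∑ z ∈ nb N A y, phi y z * (1 - (if N x z then 1 / 2 else 0) -
      (if N x z ∧ col x z = col x y then 1 / 2 else 0)) ≤ ρ * phi x y

/-- The weighted two-step measure. -/
noncomputable def EEW {V : Type} {r : ℕ} (N : V → V → Prop) (w : ℝ) (col : V → V → Fin r)
    (phi : V → V → ℝ) (A : Finset V) (x : V) : ℝ :=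
  ∑ k ∈ Finset.range r, w * ∑ y ∈ cl N col A x k, OM N w phi (lev N col A x (k + 1)) y

/-- **PAIRW** (as `S_PAIR`, see `T/PAIR.lean`). For `y ∈ nb N A x` the point `z ∈ A` with `N y z`
contributes `phi y z` to `EEW col + EEW (rev col)` twice if `¬ N x z`, once if `N x z` and
`col x z ≠ col x y`, and never if `N x z` and `col x z = col x y`. -/
def S_PAIRW : Prop :=
  ∀ (V : Type) (N : V → V → Prop) (w : ℝ) (r : ℕ) (col : V → V → Fin r) (phi : V → V → ℝ)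
    (C φ₀ ρ : ℝ), GeoW N w r col phi C φ₀ ρ →
    GeoW N w r (fun x y => (col x y).rev) phi C φ₀ ρ ∧
    ∀ (A : Finset V) (x : V),
      EEW N w col phi A x + EEW N w (fun x y => (col x y).rev) phi A x ≤ 2 * ρ * OM N w phi A x

/-- **ONEW** (as `S_ONE`, see `T/ONE.lean`; the recursion `S_CHAIN` is stated for `Geo`, but its
proof in `T/CHAIN.lean` only uses `refl`, `symm`, `clique`: restate it for `GeoW`). -/
def S_ONEW : Prop :=
  ∀ (V : Type) (N : V → V → Prop) (w : ℝ) (r : ℕ) (col : V → V → Fin r) (phi : V → V → ℝ)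
    (C φ₀ ρ : ℝ), 1 ≤ r →
    GeoW N w r col phi C φ₀ ρ → ∀ (A : Finset V) (x : V) (l : ℂ) (M η : ℝ), 0 ≤ M → 0 ≤ η →
    2 * η * C < 1 →
    (∀ k ≤ r, Z N w (lev N col A x k) l ≠ 0) →
    (∀ k < r, ∀ y ∈ cl N col A x k,
      Z N w (rem N (lev N col A x (k + 1)) y) l ≠ 0 ∧
      ‖W N w (lev N col A x (k + 1)) y l‖ ≤ 2 ∧
      ‖W N w (lev N col A x (k + 1)) y l‖ * ‖DD N w (lev N col A x (k + 1)) y l‖ ^ 2 ≤
        M ^ 2 * OM N w phi (lev N col A x (k + 1)) y ∧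
      ∃ t : ℝ, 0 ≤ t ∧ ‖l * W N w (lev N col A x (k + 1)) y l - (t : ℂ)‖ ≤ η) →
    √‖W N w A x l‖ * ‖DD N w A x l‖ ≤ ((1 - 2 * η * C)⁻¹) ^ (r + 1) *
      (2 * (w * ((nb N A x).card : ℝ)) + √(‖l‖ * GG r * (M ^ 2 * EEW N w col phi A x)))

/-- **NEARW** (as `S_NEAR`, see `T/NEAR.lean`; `OM ≤ w #nb ≤ C` since `phi ≤ 1`). -/
def S_NEARW : Prop :=
  ∀ (V : Type) (N : V → V → Prop) (w : ℝ) (r : ℕ) (col : V → V → Fin r) (phi : V → V → ℝ)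
    (C φ₀ ρ : ℝ),
    GeoW N w r col phi C φ₀ ρ → ∀ (l₁ ε M : ℝ), 0 ≤ l₁ → 0 < ε → 0 ≤ M → 0 < C →
    2 * (M * √C) * ε ≤ Real.exp (-(l₁ * C)) / 2 →
    ∀ (A : Finset V) (x : V),
      (∀ l ∈ Om l₁ ε, Z N w A l ≠ 0 ∧ Z N w (rem N A x) l ≠ 0 ∧
        ‖W N w A x l‖ * ‖DD N w A x l‖ ^ 2 ≤ M ^ 2 * OM N w phi A x) →
      ∀ l ∈ Om l₁ ε, ‖W N w A x l‖ ≤ 2 ∧ Real.exp (-(l₁ * C)) / 2 ≤ ‖W N w A x l‖ ∧
        ∃ t : ℝ, 0 ≤ t ∧ ‖l * W N w A x l - (t : ℂ)‖ ≤ 2 * ε + l₁ * (2 * (M * √C) * ε)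

/-- **MAINW** -/
def S_MAINW : Prop :=
  ∀ (r : ℕ) (C φ₀ ρ l₁ : ℝ), 1 ≤ r → 0 < C → 0 < φ₀ → φ₀ ≤ 1 → 0 < ρ → 0 ≤ l₁ →
    l₁ * GG r * ρ < 1 →
    ∃ ε : ℝ, 0 < ε ∧ ∃ M : ℝ, 0 < M ∧ ∃ ω₀ : ℝ, 0 < ω₀ ∧
      ∀ (V : Type) (N : V → V → Prop) (w : ℝ) (col : V → V → Fin r) (phi : V → V → ℝ),
        GeoW N w r col phi C φ₀ ρ →
        ∀ (A : Finset V) (l : ℂ), l ∈ Om l₁ ε →
          Z N w A l ≠ 0 ∧
          ∀ x : V, ‖W N w A x l‖ * ‖DD N w A x l‖ ^ 2 ≤ M ^ 2 * (w * ((nb N A x).card : ℝ)) ∧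
            ‖W N w A x l‖ ≤ 2 ∧ ω₀ ≤ ‖W N w A x l‖

/-- **INDW** (as `S_INDQ`, see `T/IND.lean`). Use `S_CONST` with `C' = C / φ₀ ≥ C` (and `GeoW`
with `vol` bounded by `C'`), and the hypothesis `‖W‖ ‖DD‖² ≤ M² OM` in the induction:
`2 w #nb ≤ 2 √C √(w #nb) ≤ 2 √(C/φ₀) √OM`, and by PAIRW one of the two colourings has
`EEW ≤ ρ OM`. At the end `OM ≤ w #nb`. -/
def S_INDW : Prop := S_STEP → S_PAIRW → S_ONEW → S_NEARW → S_CONST → S_MAINW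

/-- **COREW**. -/
def S_COREW : Prop :=
  ∀ (r : ℕ) (C φ₀ ρ l₁ : ℝ), 1 ≤ r → 0 < C → 0 < φ₀ → φ₀ ≤ 1 → 0 < ρ → 0 ≤ l₁ →
    l₁ * GG r * ρ < 1 →
    ∃ ε : ℝ, 0 < ε ∧ ∃ M : ℝ, 0 < M ∧
      ∀ (V : Type) (N : V → V → Prop) (w : ℝ) (col : V → V → Fin r) (phi : V → V → ℝ),
        GeoW N w r col phi C φ₀ ρ →
        ∀ (A : Finset V) (l : ℂ), l ∈ Om l₁ ε →
          Z N w A l ≠ 0 ∧ ‖deriv (Z N w A) l‖ ≤ M * (w * (A.card : ℝ)) * ‖Z N w A l‖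

/-- **LOGDW** (as `S_LOGD`, see `T/LOGD.lean`). -/
def S_LOGDW : Prop := S_STEP → S_MAINW → S_COREW

/-- The geometric hypothesis, weighted version. -/
def GeoLimW (d : ℕ) (R : ℝ) (r : ℕ) (C φ₀ ρ : ℝ) : Prop :=
  ∀ δ : ℝ, 0 < δ → ∀ᶠ n : ℕ in atTop, ∃ col : (Fin d → ℤ) → (Fin d → ℤ) → Fin r,
    ∃ phi : (Fin d → ℤ) → (Fin d → ℤ) → ℝ,
    GeoW (NB d R n) (wt d n) r col phi (C + δ) φ₀ (ρ + δ)

/-- **FREEW** (as `S_FREEQ`, see `T/FREE.lean`). -/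
def S_FREEW : Prop :=
  ∀ (d : ℕ) (R : ℝ) (r : ℕ) (C φ₀ ρ l₁ : ℝ), 1 ≤ d → 0 < R → 1 ≤ r → 0 < C → 0 < φ₀ → φ₀ ≤ 1 →
    0 < ρ → 0 ≤ l₁ → l₁ * GG r * ρ < 1 → GeoLimW d R r C φ₀ ρ →
    ∃ ε : ℝ, 0 < ε ∧ ∃ M : ℝ, 0 < M ∧ FreeR d (zz d R) l₁ ε M

def S_FREEWQ : Prop := S_LIM → S_SER → S_SUM → S_COREW → S_FREEW

/-! ## Geometry of the plane -/

open Classical in
/-- The weight `19/25 + 6/25 |z - y|² / (n R)²` of the grid points `z` with `N y z`. -/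
noncomputable def gw (R : ℝ) (n : ℕ) (y z : Fin 2 → ℤ) : ℝ :=
  19 / 25 + 6 / 25 * ((∑ k, ((z k : ℝ) - (y k : ℝ)) ^ 2) / (n * R) ^ 2)

/-- The integral of the weight over the lens of two unit discs at distance `s`: with
`θ = arccos (s/2)`, `A0 = ∫_{s/2}^1 √(1-x²) dx = (θ - (s/2) sin θ)/2`,
`A1 = ∫ x √(1-x²) dx = sin³θ/3`, `A2 = ∫ x² √(1-x²) dx = θ/8 - sin 4θ/32`,
`A3 = ∫ (1-x²)^{3/2} dx = 3θ/8 - sin 2θ/4 + sin 4θ/32`. -/
noncomputable def Jf (s : ℝ) : ℝ :=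
  4 * (19 / 25) * ((Real.arccos (s / 2) - s / 2 * Real.sin (Real.arccos (s / 2))) / 2) +
  2 * (6 / 25) * (2 * (Real.arccos (s / 2) / 8 - Real.sin (4 * Real.arccos (s / 2)) / 32) +
    s ^ 2 * ((Real.arccos (s / 2) - s / 2 * Real.sin (Real.arccos (s / 2))) / 2) -
    2 * s * (Real.sin (Real.arccos (s / 2)) ^ 3 / 3)) +
  4 * (6 / 25) / 3 * (3 * Real.arccos (s / 2) / 8 - Real.sin (2 * Real.arccos (s / 2)) / 4 +
    Real.sin (4 * Real.arccos (s / 2)) / 32)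

/-- **LENSJ**. The integral of `19/25 + 6/25 |x|²/R²` over the intersection of the discs of radius
`R` with the centres `0` and `u`, `|u| = s R`, is `R² Jf s`: rotate to `u = (s R, 0)`, scale to
`R = 1`; the line `x = s/2` cuts the lens into a cap of the unit disc and its mirror image, so the
integral is `∫_{x > s/2, x² + y² < 1} (φ(x, y) + φ(s - x, y))`. (Only `≤` is needed.) -/
def S_LENSJ : Prop :=
  ∀ (R : ℝ), 0 < R → ∀ u : Fin 2 → ℝ, ∑ k, u k ^ 2 < R ^ 2 →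
    R ^ 2 * Jf (√(∑ k, u k ^ 2) / R) ≤
      ∫ x in Bs 2 R ∩ Bc 2 u R, (19 / 25 + 6 / 25 * ((∑ k, x k ^ 2) / R ^ 2))

open Classical in
/-- **LENSWG** (grid version, uniformly; compare `T/LENSG.lean`). For `F` any function with
`F(|u|²) ≤ ∫_{lens u}` for all `|u| < R`. As in `S_LENSG`: the sum over the grid points of the lens
of radius `n R` of the weight, times `1/n²`, is at least the integral over the lens of radius
`n R - 2` of the weight minus an error `O(1/n)` (the weight is Lipschitz in `z / n`), which is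
compared by the homothety with centre `v/2` with the integral over the full lens. -/
def S_LENSWG : Prop :=
  ∀ (R δ : ℝ) (F : ℝ → ℝ), 0 < R → 0 < δ →
    (∀ u : Fin 2 → ℝ, ∑ k, u k ^ 2 < R ^ 2 →
      F (∑ k, u k ^ 2) ≤
        ∫ x in Bs 2 R ∩ Bc 2 u R, (19 / 25 + 6 / 25 * ((∑ k, x k ^ 2) / R ^ 2))) →
    ∀ᶠ n : ℕ in atTop, ∀ x y : Fin 2 → ℤ, NB 2 R n x y →
      F ((∑ k, ((y k : ℝ) - (x k : ℝ)) ^ 2) / n ^ 2) - δ ≤
        wt 2 n * ∑' z : Fin 2 → ℤ, (if NB 2 R n y z ∧ NB 2 R n x z then gw R n y z else 0)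

open Classical in
/-- **TOTW**. The total weight: the limit is `∫_{|x|<R} (19/25 + 6/25 |x|²/R²) =
π R² (19/25 + 3/25)`; translate to `y = 0` and use
`tendsto_tsum_div_pow_atTop_integral` (Mathlib, `BoxIntegral/UnitPartition`). -/
def S_TOTW : Prop :=
  ∀ (R δ : ℝ), 0 < R → 0 < δ → ∀ᶠ n : ℕ in atTop, ∀ y : Fin 2 → ℤ,
    wt 2 n * ∑' z : Fin 2 → ℤ, (if NB 2 R n y z then gw R n y z else 0) ≤
      Real.pi * R ^ 2 * (22 / 25) + δ

open Classical in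
/-- **COLW** (the six sectors, weighted; compare `T/COL2.lean`, same colouring `c`). With
`α = 19/25`, `β = 6/25`, `s = |v|/(nR)`: the sum over the grid points `u` of the sector of `v` of
`α + β |u - v|²/(nR)²` is `α #Q + β (∑|u|² - 2 v·∑u + #Q |v|²)/(nR)²`. For the sector `Q` of angle
60 degrees and radius `R`: area `π R²/6`, `∫_Q |u|² = π R⁴/12`, `|∫_Q u| = R³/3`. The limits (for
each of the six sectors) by `tendsto_tsum_div_pow_atTop_integral`; uniformity in `v` is clear,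
since `v` enters only through `v·∑u ≤ |v| |∑ u|` and `|v|²`. -/
def S_COLW : Prop :=
  ∃ c : (Fin 2 → ℤ) → Fin 6,
    (∀ (ρ : ℝ) (u v : Fin 2 → ℤ), ∑ k, (u k : ℝ) ^ 2 < ρ ^ 2 → ∑ k, (v k : ℝ) ^ 2 < ρ ^ 2 →
      c u = c v → ∑ k, ((u k : ℝ) - (v k : ℝ)) ^ 2 < ρ ^ 2) ∧
    (∀ R δ : ℝ, 0 < R → 0 < δ → ∀ᶠ n : ℕ in atTop, ∀ v : Fin 2 → ℤ,
      ∑ k, (v k : ℝ) ^ 2 < (n * R) ^ 2 → ∀ s : ℝ, s = √(∑ k, (v k : ℝ) ^ 2) / (n * R) →
      Real.pi * R ^ 2 / 6 * (19 / 25 + 6 / 25 * (1 / 2 - 4 / Real.pi * s + s ^ 2)) - δ ≤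
        wt 2 n * ∑' u : Fin 2 → ℤ, (if ∑ k, (u k : ℝ) ^ 2 < (n * R) ^ 2 ∧ c u = c v then
          19 / 25 + 6 / 25 * ((∑ k, ((u k : ℝ) - (v k : ℝ)) ^ 2) / (n * R) ^ 2) else 0))

/-- **INEQW** (a one-variable inequality). Numerically the quotient of the left side and
`π (19/25 + 6/25 s²)` has the maximum `0.6530` near `s = 0.78`, so there is a slack of 0.3 percent.
`Jf 0 = 22π/25`, `Jf' s = - √(4 - s²) (1 + 3/25 s²) + 12/25 s arccos (s/2)`; use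
`√(4 - t²) ≤ 2 - t²/4 - t⁴/64` and `arccos (t/2) ≥ π/2 - t/2 - t³/48 - c t⁵` and integrate, then a
polynomial inequality in `s` (with `3.14159 < π < 3.1416`). -/
def S_INEQW : Prop :=
  ∀ s : ℝ, 0 ≤ s → s ≤ 1 →
    Real.pi * (22 / 25) - Jf s / 2 -
      Real.pi / 12 * (19 / 25 + 6 / 25 * (1 / 2 - 4 / Real.pi * s + s ^ 2)) ≤
      131 / 200 * Real.pi * (19 / 25 + 6 / 25 * s ^ 2)

/-- **GEOW** (assembly). `col x y = c (y - x)`, `phi x z = gw R n x z`. For `N x y` and a finite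
set `A` the sum in `step` is at most the sum over all `z` (the factor is nonnegative), which is
`∑' [N y z] phi - 1/2 ∑' [N y z, N x z] phi - 1/2 ∑' [N x z, c (z - x) = c (y - x)] phi` (`clique`),
and by TOTW, LENSWG (with `F t = R² Jf (√t / R)` and LENSJ) and COLW (with `v = y - x`, `u = z - x`)
this is, times `wt`, at most `R²` times the left side of INEQW, plus `2 δ`, `s = |y - x|/(nR)`.
`vol` from UP (`bv 2 R = π R²` by BV and `EuclideanSpace.volume_ball_fin_two`). -/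
def S_GEOW : Prop :=
  S_UP → S_BV → S_LENSJ → S_LENSWG → S_TOTW → S_COLW → S_INEQW →
    ∀ R : ℝ, 0 < R → GeoLimW 2 R 6 (Real.pi * R ^ 2) (19 / 25) (131 / 200 * (Real.pi * R ^ 2))

end Pool.Agent.H288.HS
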