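import Pool.Agent.H288.HS.Main
import Pool.Agent.H288.HS.Stm3

/-!
# Hard disks: assembly of the weighted version
-/

set_option autoImplicit false

open MeasureTheory Set Filter Topology

namespace Pool.Agent.H288.HS

theorem main_zzW (hFAM : S_FAM) (hPRESS : S_PRESS) (hANA : S_ANA)
    (hMONO : S_MONO) (hINV : S_INV) (hCAN : S_CAN)
    (d : ℕ) (R t : ℝ) (hd : 1 ≤ d) (hR : 0 < R) (ht : 0 < t) (hV : 0 < bv d R)
    (hFR : ∀ l₁ : ℝ, 0 < l₁ → l₁ * bv d R < t →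
      ∃ ε : ℝ, 0 < ε ∧ ∃ M : ℝ, 0 < M ∧ FreeR d (zz d R) l₁ ε M) :
    (∃ p : ℝ → ℝ, ∀ l ∈ Set.Ioo 0 (t / bv d R),
      Tendsto (fun L : ℝ => Real.log (ZM (zz d R) L 0 l) / L ^ d) atTop (𝓝 (p l)) ∧
        AnalyticAt ℝ p l) ∧
    (∃ f : ℝ → ℝ, ∀ ρ ∈ Set.Ioo 0 (t / (1 + t) / bv d R),
      ((∀ᶠ q in thermo d ρ, 0 < zz d R q.2 q.1) ∧
        Tendsto (fun q : ℕ × ℝ => -(Real.log (zz d R q.2 q.1)) / q.1) (thermo d ρ)
          (𝓝 (f ρ))) ∧ AnalyticAt ℝ f ρ) := by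
  set V := bv d R with hVdef
  have hF := hFAM d R hd hR
  have hp : ∀ l : ℝ, ∃ p : ℝ, 0 ≤ l →
      Tendsto (fun L : ℝ => Real.log (ZM (zz d R) L 0 l) / L ^ d) atTop (𝓝 p) := by
    intro l
    by_cases hl : 0 ≤ l
    · obtain ⟨p, h⟩ := hPRESS d V (zz d R) hd hV.le hF l hl
      exact ⟨p, fun _ => h⟩
    · exact ⟨0, fun h => absurd h hl⟩
  choose p hp using hp
  have hana : ∀ l₁ : ℝ, 0 < l₁ → l₁ * V < t → ∀ s ∈ Set.Ioo 0 l₁, AnalyticAt ℝ p s := by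
    intro l₁ h1 h2
    obtain ⟨ε, hε, M, hM, hFr⟩ := hFR l₁ h1 h2
    exact hANA d V (zz d R) l₁ ε M hd hV.le h1 hε hM hF hFr p hp
  refine ⟨⟨p, ?_⟩, ?_⟩
  · intro l hl
    refine ⟨hp l hl.1.le, ?_⟩
    have h1 : l * V < t := by
      have := hl.2
      rwa [lt_div_iff₀ hV] at this
    have h2 : (l + t / V) / 2 * V < t := by
      have : (l + t / V) / 2 * V = (l * V + t) / 2 := by field_simp
      rw [this]
      linarith
    exact hana ((l + t / V) / 2) (by have := hl.1; have := div_pos ht hV; linarith) h2 l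
      ⟨hl.1, by have := hl.2; linarith⟩
  · refine ⟨fun ρ => limUnder (thermo d ρ)
      (fun q : ℕ × ℝ => -(Real.log (zz d R q.2 q.1)) / q.1), ?_⟩
    intro ρ hρ
    have hρ0 := hρ.1
    have hVρ : V * ρ * (1 + t) < t := by
      have h1 := hρ.2
      rw [div_div, lt_div_iff₀ (by positivity)] at h1
      nlinarith
    have hVρ1 : V * ρ < 1 := by
      have : 0 < V * ρ := by positivity
      nlinarith
    have hlt : ρ / (1 - V * ρ) < t / V := by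
      rw [div_lt_div_iff₀ (by linarith) hV]
      nlinarith
    obtain ⟨l₁, h1, h2⟩ := exists_between hlt
    have hl₁ : 0 < l₁ := lt_trans (div_pos hρ0 (by linarith)) h1
    have hl₁t : l₁ * V < t := by rwa [lt_div_iff₀ hV] at h2
    have hρl : ρ < l₁ / (1 + V * l₁) := by
      rw [div_lt_iff₀ (by linarith)] at h1
      rw [lt_div_iff₀ (by positivity)]
      nlinarith
    have hA := hana l₁ hl₁ hl₁t
    obtain ⟨hm1, hm2⟩ := hMONO d V (zz d R) l₁ hd hV.le hl₁ hF p hp hA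
    obtain ⟨hsm, g, hg⟩ := hINV V l₁ p hV.le hl₁ hA hm1 hm2
    have hdp : ∀ s ∈ Set.Ioo 0 l₁, 0 < deriv p s := by
      intro s hs
      have h3 := (hm1 s hs).1
      have h4 : 0 < 1 + V * s := by have := hs.1; positivity
      by_contra hcon
      push Not at hcon
      nlinarith
    have hcan := hCAN d V (zz d R) l₁ hd hV.le hl₁ hF p hp hA hdp hsm
    have hcan' : ∀ ρ' ∈ Set.Ioo 0 (l₁ / (1 + V * l₁)),
        (∀ᶠ q in thermo d ρ', 0 < zz d R q.2 q.1) ∧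
        Tendsto (fun q : ℕ × ℝ => -(Real.log (zz d R q.2 q.1)) / q.1) (thermo d ρ')
          (𝓝 (Real.log (g ρ') - p (g ρ') / ρ')) := by
      intro ρ' hρ'
      obtain ⟨h3, h4, _⟩ := hg ρ' hρ'
      have h5 := hcan (g ρ') h3
      rwa [h4] at h5
    have hlim : ∀ ρ' ∈ Set.Ioo 0 (l₁ / (1 + V * l₁)),
        limUnder (thermo d ρ') (fun q : ℕ × ℝ => -(Real.log (zz d R q.2 q.1)) / q.1) =
          Real.log (g ρ') - p (g ρ') / ρ' := by
      intro ρ' hρ'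
      have := thermo_neBot d hd ρ' hρ'.1
      exact (hcan' ρ' hρ').2.limUnder_eq
    refine ⟨⟨(hcan' ρ ⟨hρ0, hρl⟩).1, ?_⟩, ?_⟩
    · show Tendsto _ _ (𝓝 (limUnder (thermo d ρ)
        (fun q : ℕ × ℝ => -(Real.log (zz d R q.2 q.1)) / q.1)))
      rw [hlim ρ ⟨hρ0, hρl⟩]
      exact (hcan' ρ ⟨hρ0, hρl⟩).2
    · obtain ⟨h3, h4, h5⟩ := hg ρ ⟨hρ0, hρl⟩
      have h6 : AnalyticAt ℝ (fun ρ' => Real.log (g ρ') - p (g ρ') / ρ') ρ := by
        have h7 : AnalyticAt ℝ p (g ρ) := hA _ h3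
        have h8 : AnalyticAt ℝ (fun ρ' => p (g ρ')) ρ := h7.comp h5
        exact (h5.log h3.1).sub (h8.div analyticAt_id hρ0.ne')
      refine h6.congr ?_
      filter_upwards [Ioo_mem_nhds hρ0 hρl] with ρ' hρ'
      exact (hlim ρ' hρ').symm


theorem bv2' (h : S_BV) (R : ℝ) (hR : 0 < R) : bv 2 R = Real.pi * R ^ 2 := by
  obtain ⟨h1, _, _⟩ := h 2 R (by norm_num) hR
  rw [h1, Measure.real, EuclideanSpace.volume_ball_fin_two]
  rw [ENNReal.toReal_mul, ENNReal.toReal_pow, ENNReal.toReal_ofReal hR.le]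
  simp [mul_comm, Real.pi_pos.le]

/-- Hard disks: the weighted version. -/
theorem fin_2W (hBV : S_BV) (hFAM : S_FAM) (hPRESS : S_PRESS) (hANA : S_ANA)
    (hMONO : S_MONO) (hINV : S_INV) (hCAN : S_CAN) (hFREE : S_FREEW)
    (hG : ∀ R : ℝ, 0 < R →
      GeoLimW 2 R 6 (Real.pi * R ^ 2) (19 / 25) (131 / 200 * (Real.pi * R ^ 2))) :
    NoTransition 2 (7 / 6 * (8 / 7) ^ 8 / (131 / 200)) := by
  intro a₀ ha₀
  have hπ := Real.pi_pos
  have hR : 0 < 2 * a₀ := by positivity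
  obtain ⟨h1, h2, h3⟩ := hBV 2 (2 * a₀) (by norm_num) hR
  have hV : 0 < bv 2 (2 * a₀) := by rw [h2]; positivity
  have hex : exclVol 2 a₀ = bv 2 (2 * a₀) := h1.symm
  have hz : ∀ L N, Zpart 2 a₀ L N = zz 2 (2 * a₀) L N := fun _ _ => rfl
  have hgr : ∀ L l, Grand 2 a₀ L l = ZM (zz 2 (2 * a₀)) L 0 l := by
    intro L l
    simp only [Grand, ZM, hz, pow_zero, one_mul]
  have hFR : ∀ l₁ : ℝ, 0 < l₁ → l₁ * bv 2 (2 * a₀) < 7 / 6 * (8 / 7) ^ 8 / (131 / 200) →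
      ∃ ε : ℝ, 0 < ε ∧ ∃ M : ℝ, 0 < M ∧ FreeR 2 (zz 2 (2 * a₀)) l₁ ε M := by
    intro l₁ hl hlt
    refine hFREE 2 (2 * a₀) 6 (Real.pi * (2 * a₀) ^ 2) (19 / 25)
      (131 / 200 * (Real.pi * (2 * a₀) ^ 2)) l₁ (by norm_num) hR (by norm_num) (by positivity)
      (by norm_num) (by norm_num) (by positivity) hl.le ?_ (hG _ hR)
    rw [bv2' hBV _ hR] at hlt
    have hGG : GG 6 = 6 / 7 * (7 / 8) ^ 8 := by
      unfold GG; norm_num
    rw [hGG]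
    rw [lt_div_iff₀ (by norm_num)] at hlt
    have : l₁ * (6 / 7 * (7 / 8) ^ 8) * (131 / 200 * (Real.pi * (2 * a₀) ^ 2)) =
        6 / 7 * (7 / 8) ^ 8 * (l₁ * (Real.pi * (2 * a₀) ^ 2) * (131 / 200)) := by ring
    rw [this]
    calc 6 / 7 * (7 / 8) ^ 8 * (l₁ * (Real.pi * (2 * a₀) ^ 2) * (131 / 200))
        < 6 / 7 * (7 / 8) ^ 8 * (7 / 6 * (8 / 7) ^ 8) :=
          mul_lt_mul_of_pos_left hlt (by norm_num)
      _ = 1 := by norm_num
  obtain ⟨⟨p, hp⟩, f, hf⟩ := main_zzW hFAM hPRESS hANA hMONO hINV hCAN 2 (2 * a₀)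
    (7 / 6 * (8 / 7) ^ 8 / (131 / 200)) (by norm_num) hR (by norm_num) hV hFR
  rw [hex]
  refine ⟨⟨p, ?_⟩, f, ?_⟩
  · simpa only [hgr] using hp
  · intro ρ hρ
    exact ⟨⟨(hf ρ hρ).1.1, (hf ρ hρ).1.2⟩, (hf ρ hρ).2⟩

theorem tW_gt : (5.18 : ℝ) < 7 / 6 * (8 / 7) ^ 8 / (131 / 200) := by norm_num

end Pool.Agent.H288.HS
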