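import Pool.Agent.H288.HS.Stm3

/-!
# Hard spheres in space: statements of the weighted version

As in `Stm3.lean`, in dimension three, with the 24 cones of `T/COL3.lean` and the weight
`31/40 + 9/40 |z - x|² / R²`.
-/

set_option autoImplicit false

open MeasureTheory Set Filter Topology

namespace Pool.Agent.H288.HS

/-- The weight `31/40 + 9/40 |z - y|² / (n R)²` of the grid points `z` with `N y z`. -/
noncomputable def gw3 (R : ℝ) (n : ℕ) (y z : Fin 3 → ℤ) : ℝ :=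
  31 / 40 + 9 / 40 * ((∑ k, ((z k : ℝ) - (y k : ℝ)) ^ 2) / (n * R) ^ 2)

/-- The integral of the weight over the lens of two unit balls at distance `s`: with
`A0 = ∫_{s/2}^1 (1 - x²) dx = 2/3 - s/2 + s³/24`, `A1 = ∫_{s/2}^1 x (1 - x²) dx = (1 - s²/4)²/4`,
`B = ∫_{s/2}^1 (x² (1 - x²) + (1 - x²)²/2) dx = (1 - s/2)/2 - (1 - s⁵/32)/10`
it is `π (2 (31/40) A0 + (9/40) (2 B + s² A0 - 2 s A1))`. -/
noncomputable def Jf3 (s : ℝ) : ℝ :=
  Real.pi * (2 * (31 / 40) * (2 / 3 - s / 2 + s ^ 3 / 24) +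
    9 / 40 * (2 * ((1 - s / 2) / 2 - (1 - s ^ 5 / 32) / 10) +
      s ^ 2 * (2 / 3 - s / 2 + s ^ 3 / 24) - 2 * s * ((1 - s ^ 2 / 4) ^ 2 / 4)))

/-- **LENSJ3** (as `S_LENSJ`, see `T/LENSJ.lean`, and `T/LENS3.lean` for the rotation and the slices
in dimension three). The integral of `31/40 + 9/40 |x|²/R²` over the intersection of the balls of
radius `R` with the centres `0` and `u`, `|u| = s R`, is `R³ Jf3 s`: rotate to `u = (s R, 0, 0)`,
scale to `R = 1`; the plane `x = s/2` cuts the lens into a cap of the unit ball and its mirror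
image, so the integral is `∫_{x > s/2, |p| < 1} (φ(p) + φ(mirror image of p))`, where the mirror
image `p'` of `p = (x, y, z)` has `|p'|² = |p|² - 2 s x + s²`; integrate over the discs
`y² + z² < 1 - x²`. (Only `≤` is needed.) -/
def S_LENSJ3 : Prop :=
  ∀ (R : ℝ), 0 < R → ∀ u : Fin 3 → ℝ, ∑ k, u k ^ 2 < R ^ 2 →
    R ^ 3 * Jf3 (√(∑ k, u k ^ 2) / R) ≤
      ∫ x in Bs 3 R ∩ Bc 3 u R, (31 / 40 + 9 / 40 * ((∑ k, x k ^ 2) / R ^ 2))

open Classical in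
/-- **LENSWG3** (as `S_LENSWG`, see `T/LENSWG.lean`, in dimension three). -/
def S_LENSWG3 : Prop :=
  ∀ (R δ : ℝ) (F : ℝ → ℝ), 0 < R → 0 < δ →
    (∀ u : Fin 3 → ℝ, ∑ k, u k ^ 2 < R ^ 2 →
      F (∑ k, u k ^ 2) ≤
        ∫ x in Bs 3 R ∩ Bc 3 u R, (31 / 40 + 9 / 40 * ((∑ k, x k ^ 2) / R ^ 2))) →
    ∀ᶠ n : ℕ in atTop, ∀ x y : Fin 3 → ℤ, NB 3 R n x y →
      F ((∑ k, ((y k : ℝ) - (x k : ℝ)) ^ 2) / n ^ 2) - δ ≤
        wt 3 n * ∑' z : Fin 3 → ℤ, (if NB 3 R n y z ∧ NB 3 R n x z then gw3 R n y z else 0)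

open Classical in
/-- **TOTW3** (as `S_TOTW`, see `T/TOTW.lean`). The limit is
`∫_{|x|<R} (31/40 + 9/40 |x|²/R²) = 4 π R³ (31/120 + 9/200) = 91/75 π R³`. -/
def S_TOTW3 : Prop :=
  ∀ (R δ : ℝ), 0 < R → 0 < δ → ∀ᶠ n : ℕ in atTop, ∀ y : Fin 3 → ℤ,
    wt 3 n * ∑' z : Fin 3 → ℤ, (if NB 3 R n y z then gw3 R n y z else 0) ≤
      91 / 75 * Real.pi * R ^ 3 + δ

open Classical in
/-- **COLW3** (the 24 cones, weighted; the colouring `c` and its properties are in `T/COL3.lean`,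
the weighted argument in `T/COLW.lean`). Since `|u - v| ≥ | |u| - |v| |`, with `s = |v|/(nR)` the sum
over the grid points `u` of the cone of `v` is at least
`∑ (31/40 + 9/40 (|u|²/(nR)² - 2 s |u|/(nR) + s²))`, and for each of the 24 cones `Q` and a
continuous function `g` of `|u|` the limit of `wt 3 n * ∑_{u ∈ Q, |u| < nR} g(|u|/n)` is
`∫_Q g(|u|) = 1/24 ∫_{|u|<R} g(|u|)` by symmetry (permutations and sign changes of the
coordinates). This is needed for `g = 1`, `|u|`, `|u|²`: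
`∫_Q 1 = π R³/18`, `∫_Q |u| = π R⁴/24`, `∫_Q |u|² = π R⁵/30`; uniformity in `v` is clear, since `v`
enters only through `s ∈ [0, 1]`. -/
def S_COLW3 : Prop :=
  ∃ c : (Fin 3 → ℤ) → Fin 24,
    (∀ (ρ : ℝ) (u v : Fin 3 → ℤ), ∑ k, (u k : ℝ) ^ 2 < ρ ^ 2 → ∑ k, (v k : ℝ) ^ 2 < ρ ^ 2 →
      c u = c v → ∑ k, ((u k : ℝ) - (v k : ℝ)) ^ 2 < ρ ^ 2) ∧
    (∀ R δ : ℝ, 0 < R → 0 < δ → ∀ᶠ n : ℕ in atTop, ∀ v : Fin 3 → ℤ,
      ∑ k, (v k : ℝ) ^ 2 < (n * R) ^ 2 → ∀ s : ℝ, s = √(∑ k, (v k : ℝ) ^ 2) / (n * R) →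
      Real.pi * R ^ 3 / 6 * (31 / 120 + 9 / 40 * (1 / 5 - s / 2 + s ^ 2 / 3)) - δ ≤
        wt 3 n * ∑' u : Fin 3 → ℤ, (if ∑ k, (u k : ℝ) ^ 2 < (n * R) ^ 2 ∧ c u = c v then
          31 / 40 + 9 / 40 * ((∑ k, ((u k : ℝ) - (v k : ℝ)) ^ 2) / (n * R) ^ 2) else 0))

/-- **CONE3** (part of COLW3): a continuous function of the norm over one of the 24 cones. The
colouring and its clique property are in `T/COL3.lean`; the limit of the sums by
`tendsto_tsum_div_pow_atTop_integral` (as in `T/COLW.lean`); the integrals over the 24 cones are equal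
since permutations and sign changes of the coordinates preserve the measure, the ball and the
function, and their sum is the integral over the ball (the boundaries are null sets). -/
def S_CONE3 : Prop :=
  ∃ c : (Fin 3 → ℤ) → Fin 24,
    (∀ (ρ : ℝ) (u v : Fin 3 → ℤ), ∑ k, (u k : ℝ) ^ 2 < ρ ^ 2 → ∑ k, (v k : ℝ) ^ 2 < ρ ^ 2 →
      c u = c v → ∑ k, ((u k : ℝ) - (v k : ℝ)) ^ 2 < ρ ^ 2) ∧
    (∀ (R : ℝ) (g : ℝ → ℝ), 0 < R → Continuous g → ∀ j : Fin 24,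
      Tendsto (fun n : ℕ => wt 3 n * ∑ᶠ u ∈ {u : Fin 3 → ℤ |
        ∑ k, (u k : ℝ) ^ 2 < (n * R) ^ 2 ∧ c u = j}, g (∑ k, ((u k : ℝ) / n) ^ 2)) atTop
        (𝓝 (1 / 24 * ∫ x in Bs 3 R, g (∑ k, x k ^ 2))))

/-- **RAD3** (polar coordinates, e.g. `MeasureTheory.integral_fun_norm_addHaar` on
`EuclideanSpace ℝ (Fin 3)` and `EuclideanSpace.volume_preserving_symm_measurableEquiv_toLp`, or as
in `T/BV.lean`). -/
def S_RAD3 : Prop :=
  ∀ (R : ℝ) (g : ℝ → ℝ), 0 < R → Continuous g →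
    ∫ x in Bs 3 R, g (∑ k, x k ^ 2) = 4 * Real.pi * ∫ r in (0 : ℝ)..R, g (r ^ 2) * r ^ 2

/-- **INEQW3** (a polynomial inequality of degree 5 on `[0, 1]`, after division by `π`).
Numerically the quotient of the left side and `4/3 π (31/40 + 9/40 s²)` has the maximum `0.7624`
near `s = 0.80`, so there is a slack of 0.3 percent. -/
def S_INEQW3 : Prop :=
  ∀ s : ℝ, 0 ≤ s → s ≤ 1 →
    91 / 75 * Real.pi - Jf3 s / 2 -
      Real.pi / 12 * (31 / 120 + 9 / 40 * (1 / 5 - s / 2 + s ^ 2 / 3)) ≤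
      153 / 200 * (4 / 3 * Real.pi) * (31 / 40 + 9 / 40 * s ^ 2)

/-- **GEOW3** (assembly; as `S_GEOW`, see `T/GEOW.lean`). `col x y = c (y - x)`,
`phi x z = gw3 R n x z`; by TOTW3, LENSWG3 (with `F t = R³ Jf3 (√t / R)` and LENSJ3) and COLW3 the
sum in `step` is at most `R³` times the left side of INEQW3, plus `2 δ`. `vol` from UP
(`bv 3 R = 4/3 π R³`, `bv3` of `Fin.lean`). -/
def S_GEOW3 : Prop :=
  S_UP → S_BV → S_LENSJ3 → S_LENSWG3 → S_TOTW3 → S_COLW3 → S_INEQW3 →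
    ∀ R : ℝ, 0 < R →
      GeoLimW 3 R 24 (4 / 3 * Real.pi * R ^ 3) (31 / 40) (153 / 200 * (4 / 3 * Real.pi * R ^ 3))

end Pool.Agent.H288.HS
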