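import Pool.Agent.H288.HS.Fin
import Pool.Agent.H288.HS.Fin2
import Pool.Agent.H288.HS.Stm4

/-!
# Hard spheres in space: assembly of the weighted version
-/

set_option autoImplicit false

open MeasureTheory Set Filter Topology

namespace Pool.Agent.H288.HS

/-- Hard spheres in space: the weighted version. -/
theorem fin_3W (hBV : S_BV) (hFAM : S_FAM) (hPRESS : S_PRESS) (hANA : S_ANA)
    (hMONO : S_MONO) (hINV : S_INV) (hCAN : S_CAN) (hFREE : S_FREEW)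
    (hG : ∀ R : ℝ, 0 < R →
      GeoLimW 3 R 24 (4 / 3 * Real.pi * R ^ 3) (31 / 40)
        (153 / 200 * (4 / 3 * Real.pi * R ^ 3))) :
    NoTransition 3 (25 / 24 * (26 / 25) ^ 26 / (153 / 200)) := by
  intro a₀ ha₀
  have hπ := Real.pi_pos
  have hR : 0 < 2 * a₀ := by positivity
  obtain ⟨h1, h2, h3⟩ := hBV 3 (2 * a₀) (by norm_num) hR
  have hV : 0 < bv 3 (2 * a₀) := by rw [h2]; positivity
  have hex : exclVol 3 a₀ = bv 3 (2 * a₀) := h1.symm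
  have hz : ∀ L N, Zpart 3 a₀ L N = zz 3 (2 * a₀) L N := fun _ _ => rfl
  have hgr : ∀ L l, Grand 3 a₀ L l = ZM (zz 3 (2 * a₀)) L 0 l := by
    intro L l
    simp only [Grand, ZM, hz, pow_zero, one_mul]
  have hFR : ∀ l₁ : ℝ, 0 < l₁ → l₁ * bv 3 (2 * a₀) < 25 / 24 * (26 / 25) ^ 26 / (153 / 200) →
      ∃ ε : ℝ, 0 < ε ∧ ∃ M : ℝ, 0 < M ∧ FreeR 3 (zz 3 (2 * a₀)) l₁ ε M := by
    intro l₁ hl hlt
    refine hFREE 3 (2 * a₀) 24 (4 / 3 * Real.pi * (2 * a₀) ^ 3) (31 / 40)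
      (153 / 200 * (4 / 3 * Real.pi * (2 * a₀) ^ 3)) l₁ (by norm_num) hR (by norm_num)
      (by positivity) (by norm_num) (by norm_num) (by positivity) hl.le ?_ (hG _ hR)
    rw [bv3 hBV _ hR] at hlt
    have hGG : GG 24 = 24 / 25 * (25 / 26) ^ 26 := by
      unfold GG; norm_num
    rw [hGG]
    rw [lt_div_iff₀ (by norm_num)] at hlt
    have : l₁ * (24 / 25 * (25 / 26) ^ 26) * (153 / 200 * (4 / 3 * Real.pi * (2 * a₀) ^ 3)) =
        24 / 25 * (25 / 26) ^ 26 * (l₁ * (4 / 3 * Real.pi * (2 * a₀) ^ 3) * (153 / 200)) := by ring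
    rw [this]
    calc 24 / 25 * (25 / 26) ^ 26 * (l₁ * (4 / 3 * Real.pi * (2 * a₀) ^ 3) * (153 / 200))
        < 24 / 25 * (25 / 26) ^ 26 * (25 / 24 * (26 / 25) ^ 26) :=
          mul_lt_mul_of_pos_left hlt (by norm_num)
      _ = 1 := by norm_num
  obtain ⟨⟨p, hp⟩, f, hf⟩ := main_zzW hFAM hPRESS hANA hMONO hINV hCAN 3 (2 * a₀)
    (25 / 24 * (26 / 25) ^ 26 / (153 / 200)) (by norm_num) hR (by norm_num) hV hFR
  rw [hex]
  refine ⟨⟨p, ?_⟩, f, ?_⟩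
  · simpa only [hgr] using hp
  · intro ρ hρ
    exact ⟨⟨(hf ρ hρ).1.1, (hf ρ hρ).1.2⟩, (hf ρ hρ).2⟩

theorem tW3_gt : (3.77 : ℝ) < 25 / 24 * (26 / 25) ^ 26 / (153 / 200) := by norm_num

end Pool.Agent.H288.HS
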