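import Pool.Agent.H288.HS.Stm4

/-!
# Hard spheres: the criterion with paths

A family of `m` colourings of the directions by `r` colours is used (for instance a colouring and
the reversed colouring); the growth of the number of the paths that respect the order in which the
cliques are removed decides.
-/

set_option autoImplicit false

open MeasureTheory Set Filter Topology

namespace Pool.Agent.H288.HS

/-! ## Finite gases -/

/-- The hypotheses on the gas without the cliques. -/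
structure GeoB {V : Type} (N : V → V → Prop) (w C : ℝ) : Prop where
  w_pos : 0 < w
  refl : ∀ x, N x x
  symm : ∀ x y, N x y → N y x
  vol : ∀ (A : Finset V) (x : V), w * ((nb N A x).card : ℝ) ≤ C

/-- One step of the recursion, applied to a functional `F`. -/
noncomputable def TE {V : Type} {r : ℕ} (N : V → V → Prop) (w : ℝ) (col : V → V → Fin r)
    (F : Finset V → V → ℝ) (A : Finset V) (x : V) : ℝ :=
  ∑ k ∈ Finset.range r, w * ∑ y ∈ cl N col A x k, F (lev N col A x (k + 1)) y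

/-- A gas with `m` clique colourings and a functional `F` which is contracted. -/
structure GeoF {V : Type} (N : V → V → Prop) (w : ℝ) (r m : ℕ) (col : Fin m → V → V → Fin r)
    (F : Finset V → V → ℝ) (C B ρ : ℝ) : Prop where
  base : GeoB N w C
  clique : ∀ b x y z, N x y → N x z → col b x y = col b x z → N y z
  F_ge : ∀ (A : Finset V) (x : V), 1 ≤ F A x
  F_le : ∀ (A : Finset V) (x : V), F A x ≤ B
  step : ∀ (A : Finset V) (x : V), ∃ b : Fin m, TE N w (col b) F A x ≤ ρ * F A x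

/-- **ONEF** (as `S_ONEW`, see `T/ONEW.lean`, with `F` instead of `OM N w phi` and `TE` instead of
`EEW`; only `w_pos`, `refl`, `symm`, `clique` and `vol` are used there). -/
def S_ONEF : Prop :=
  ∀ (V : Type) (N : V → V → Prop) (w : ℝ) (r : ℕ) (col : V → V → Fin r)
    (F : Finset V → V → ℝ) (C : ℝ), 1 ≤ r → GeoB N w C →
    (∀ x y z, N x y → N x z → col x y = col x z → N y z) →
    ∀ (A : Finset V) (x : V) (l : ℂ) (M η : ℝ), 0 ≤ M → 0 ≤ η → 2 * η * C < 1 →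
    (∀ k ≤ r, Z N w (lev N col A x k) l ≠ 0) →
    (∀ k < r, ∀ y ∈ cl N col A x k,
      Z N w (rem N (lev N col A x (k + 1)) y) l ≠ 0 ∧
      ‖W N w (lev N col A x (k + 1)) y l‖ ≤ 2 ∧
      ‖W N w (lev N col A x (k + 1)) y l‖ * ‖DD N w (lev N col A x (k + 1)) y l‖ ^ 2 ≤
        M ^ 2 * F (lev N col A x (k + 1)) y ∧
      ∃ t : ℝ, 0 ≤ t ∧ ‖l * W N w (lev N col A x (k + 1)) y l - (t : ℂ)‖ ≤ η) →
    √‖W N w A x l‖ * ‖DD N w A x l‖ ≤ ((1 - 2 * η * C)⁻¹) ^ (r + 1) *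
      (2 * (w * ((nb N A x).card : ℝ)) + √(‖l‖ * GG r * (M ^ 2 * TE N w col F A x)))

/-- **NEARF** (as `S_NEARW`, see `T/NEARW.lean`; there `OM ≤ C` is the first step). -/
def S_NEARF : Prop :=
  ∀ (V : Type) (N : V → V → Prop) (w C : ℝ), GeoB N w C →
    ∀ (l₁ ε M : ℝ), 0 ≤ l₁ → 0 < ε → 0 ≤ M → 0 < C →
    2 * (M * √C) * ε ≤ Real.exp (-(l₁ * C)) / 2 →
    ∀ (A : Finset V) (x : V),
      (∀ l ∈ Om l₁ ε, Z N w A l ≠ 0 ∧ Z N w (rem N A x) l ≠ 0 ∧
        ‖W N w A x l‖ * ‖DD N w A x l‖ ^ 2 ≤ M ^ 2 * C) →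
      ∀ l ∈ Om l₁ ε, ‖W N w A x l‖ ≤ 2 ∧ Real.exp (-(l₁ * C)) / 2 ≤ ‖W N w A x l‖ ∧
        ∃ t : ℝ, 0 ≤ t ∧ ‖l * W N w A x l - (t : ℂ)‖ ≤ 2 * ε + l₁ * (2 * (M * √C) * ε)

/-- **MAINF** -/
def S_MAINF : Prop :=
  ∀ (r m : ℕ) (C B ρ l₁ : ℝ), 1 ≤ r → 0 < C → 1 ≤ B → 0 < ρ → 0 ≤ l₁ →
    l₁ * GG r * ρ < 1 →
    ∃ ε : ℝ, 0 < ε ∧ ∃ M : ℝ, 0 < M ∧ ∃ ω₀ : ℝ, 0 < ω₀ ∧
      ∀ (V : Type) (N : V → V → Prop) (w : ℝ) (col : Fin m → V → V → Fin r)
        (F : Finset V → V → ℝ), GeoF N w r m col F C B ρ →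
        ∀ (A : Finset V) (l : ℂ), l ∈ Om l₁ ε →
          Z N w A l ≠ 0 ∧
          ∀ x : V, ‖W N w A x l‖ * ‖DD N w A x l‖ ^ 2 ≤ M ^ 2 ∧
            ‖W N w A x l‖ ≤ 2 ∧ ω₀ ≤ ‖W N w A x l‖

/-- **INDF** (as `S_INDW`, see `T/INDW.lean`). Use `S_CONST` with `C' = C + C ^ 2 + B` (so that
`C ≤ C'`, `C ≤ √C'`, `B ≤ C'`), `GeoB N w C'`, and the hypothesis `‖W‖ ‖DD‖² ≤ M² F` in the
induction: `w #nb ≤ C ≤ √C' ≤ √C' √F`, and `F ≤ B ≤ C'` for NEARF. At the end use `M √C'`. -/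
def S_INDF : Prop := S_STEP → S_ONEF → S_NEARF → S_CONST → S_MAINF

/-- **COREF** -/
def S_COREF : Prop :=
  ∀ (r m : ℕ) (C B ρ l₁ : ℝ), 1 ≤ r → 0 < C → 1 ≤ B → 0 < ρ → 0 ≤ l₁ →
    l₁ * GG r * ρ < 1 →
    ∃ ε : ℝ, 0 < ε ∧ ∃ M : ℝ, 0 < M ∧
      ∀ (V : Type) (N : V → V → Prop) (w : ℝ) (col : Fin m → V → V → Fin r)
        (F : Finset V → V → ℝ), GeoF N w r m col F C B ρ →
        ∀ (A : Finset V) (l : ℂ), l ∈ Om l₁ ε →
          Z N w A l ≠ 0 ∧ ‖deriv (Z N w A) l‖ ≤ M * (w * (A.card : ℝ)) * ‖Z N w A l‖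

/-- **LOGDF** (as `S_LOGDW`, see `T/LOGDW.lean`). -/
def S_LOGDF : Prop := S_STEP → S_MAINF → S_COREF

/-- The geometric hypothesis for a fine grid. -/
def GeoLimF (d : ℕ) (R : ℝ) (r m : ℕ) (C B ρ : ℝ) : Prop :=
  ∀ᶠ n : ℕ in atTop, ∃ col : Fin m → (Fin d → ℤ) → (Fin d → ℤ) → Fin r,
    ∃ F : Finset (Fin d → ℤ) → (Fin d → ℤ) → ℝ,
    GeoF (NB d R n) (wt d n) r m col F C B ρ

/-- **FREEF** (as `S_FREEWQ`, see `T/FREEWQ.lean`; simpler, since there is no `δ`). -/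
def S_FREEF : Prop :=
  ∀ (d : ℕ) (R : ℝ) (r m : ℕ) (C B ρ l₁ : ℝ), 1 ≤ d → 0 < R → 1 ≤ r → 0 < C → 1 ≤ B →
    0 < ρ → 0 ≤ l₁ → l₁ * GG r * ρ < 1 → GeoLimF d R r m C B ρ →
    ∃ ε : ℝ, 0 < ε ∧ ∃ M : ℝ, 0 < M ∧ FreeR d (zz d R) l₁ ε M

def S_FREEFQ : Prop := S_LIM → S_SER → S_SUM → S_COREF → S_FREEF

/-! ## The functional -/

/-- The `k`-step measure, averaged over the colourings. -/
noncomputable def VV {V : Type} {r m : ℕ} (N : V → V → Prop) (w : ℝ)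
    (col : Fin m → V → V → Fin r) : ℕ → Finset V → V → ℝ
  | 0 => fun _ _ => 1
  | k + 1 => fun A x => (1 / (m : ℝ)) * ∑ b : Fin m, TE N w (col b) (VV N w col k) A x

/-- The functional `∑_{k < K} ρ^{-k} VV_k`. -/
noncomputable def FF {V : Type} {r m : ℕ} (N : V → V → Prop) (w : ℝ)
    (col : Fin m → V → V → Fin r) (K : ℕ) (ρ : ℝ) (A : Finset V) (x : V) : ℝ :=
  ∑ k ∈ Finset.range K, (ρ ^ k)⁻¹ * VV N w col k A x

/-- **FUNF**. `TE` is linear in `F` and `TE 1 = w #nb ≤ C` (see `PAIRWN.EEW_eq` in `T/PAIRW.lean`),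
so `0 ≤ VV_k ≤ C^k`; the average over `b` of `TE FF` is `∑_{k<K} ρ^{-k} VV_{k+1}`
`= ρ (FF - 1 + ρ^{-K} VV_K) ≤ ρ FF`, so some `b` has `TE FF ≤ ρ FF`. -/
def S_FUNF : Prop :=
  ∀ (V : Type) (N : V → V → Prop) (w : ℝ) (r m : ℕ) (col : Fin m → V → V → Fin r) (C ρ : ℝ)
    (K : ℕ), GeoB N w C → 1 ≤ m → 1 ≤ K → 0 < C → 0 < ρ →
    (∀ b x y z, N x y → N x z → col b x y = col b x z → N y z) →
    (∀ (A : Finset V) (x : V), VV N w col K A x ≤ ρ ^ K) →
    GeoF N w r m col (FF N w col K ρ) C (∑ k ∈ Finset.range K, (C / ρ) ^ k) ρ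

/-- The path `x, q 0, ..., q (K - 1)`. -/
def pt {V : Type} {K : ℕ} (x : V) (q : Fin K → V) : Fin (K + 1) → V := Fin.cons x q

/-- The path `x = p_0, p_1, ..., p_K` (with `p_{i+1} = q i`) respects the colourings `col (o j)`:
`p_{i+1}` is excluded by `p_i`, and for `j < i` it is not in a clique of `p_j` up to that of
`p_{j+1}`, in the order of the colours of `col (o j)`. -/
def PathOK {V : Type} {r m K : ℕ} (N : V → V → Prop) (col : Fin m → V → V → Fin r) (x : V)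
    (o : Fin K → Fin m) (q : Fin K → V) : Prop :=
  (∀ i : Fin K, N (pt x q i.castSucc) (pt x q i.succ)) ∧
  ∀ i j : Fin K, j < i → ¬ (N (pt x q j.castSucc) (pt x q i.succ) ∧
    col (o j) (pt x q j.castSucc) (pt x q i.succ) ≤
      col (o j) (pt x q j.castSucc) (pt x q j.succ))

open Classical in
/-- **PATHD**. Induction on `K`: with `b = o 0` and `y = q 0`, a point `z ≠ y` of the path is in
`lev N (col b) A x (col b x y + 1)` iff `¬ (N x z ∧ col b x z ≤ col b x y)`. -/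
def S_PATHD : Prop :=
  ∀ (V : Type) (N : V → V → Prop) (w : ℝ) (r m : ℕ) (col : Fin m → V → V → Fin r) (K : ℕ)
    (A : Finset V) (x : V),
    VV N w col K A x = (w / m) ^ K * ∑ o : Fin K → Fin m,
      (((Fintype.piFinset (fun _ : Fin K => A)).filter (fun q => PathOK N col x o q)).card : ℝ)

/-! ## Geometry -/

/-- A colouring of `ℝ^d` by `r` colours which depends on the direction only, and such that points
of the unit ball of the same colour have distance less than `1`. -/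
structure CC (d r : ℕ) (c : (Fin d → ℝ) → Fin r) : Prop where
  hom : ∀ (s : ℝ) (p : Fin d → ℝ), 0 < s → c (fun k => s * p k) = c p
  clique : ∀ u v : Fin d → ℝ, ∑ k, u k ^ 2 < 1 → ∑ k, v k ^ 2 < 1 → c u = c v →
    ∑ k, (u k - v k) ^ 2 < 1
  meas : ∀ j, MeasurableSet (c ⁻¹' {j})
  null : ∃ D : Set (Fin d → ℝ), IsClosed D ∧ volume D = 0 ∧ ∀ p, p ∉ D → ∀ᶠ q in 𝓝 p, c q = c p

/-- The exclusion relation of the points of `ℝ^d` at distance less than `R`. -/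
def NR (d : ℕ) (R : ℝ) (x y : Fin d → ℝ) : Prop := ∑ k, (x k - y k) ^ 2 < R ^ 2

/-- The paths of `K` steps from the origin which respect the colourings `c (o j)`. -/
def Paths (d r m K : ℕ) (c : Fin m → (Fin d → ℝ) → Fin r) (R : ℝ) (o : Fin K → Fin m) :
    Set (Fin K → Fin d → ℝ) :=
  {q | PathOK (NR d R) (fun b x y => c b (fun k => y k - x k)) (fun _ => 0) o q}

/-- The volume of the paths of `K` steps, averaged over the colourings. -/
noncomputable def pathVol (d r m K : ℕ) (c : Fin m → (Fin d → ℝ) → Fin r) (R : ℝ) : ℝ :=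
  (1 / (m : ℝ)) ^ K * ∑ o : Fin K → Fin m, volume.real (Paths d r m K c R o)

/-- The colouring of the grid. -/
def cZ {d r m : ℕ} (c : Fin m → (Fin d → ℝ) → Fin r) (b : Fin m) (x y : Fin d → ℤ) : Fin r :=
  c b (fun k => (y k : ℝ) - (x k : ℝ))

/-- The paths in the grid of mesh `1/n`. -/
def PZ (d r m K : ℕ) (c : Fin m → (Fin d → ℝ) → Fin r) (R : ℝ) (n : ℕ) (o : Fin K → Fin m) :
    Set (Fin K → Fin d → ℤ) :=
  {q | PathOK (NB d R n) (cZ c) (fun _ => 0) o q}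

/-- **NULLP**. The path `q` is in the interior or in the exterior unless, for some `i < j`, the
difference `z = p_j - p_i` of two points of the path has `|z| = R` or is in one of the null sets
`D_b` of `CC`; the linear map `q ↦ p_j - p_i` is onto, so the preimage of a null set is null
(e.g. `LinearMap.exists_map_addHaar_eq_smul_addHaar`, or Fubini for the coordinate `q (j - 1)`). -/
def S_NULLP : Prop :=
  ∀ (d r m K : ℕ) (c : Fin m → (Fin d → ℝ) → Fin r) (R : ℝ) (o : Fin K → Fin m),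
    1 ≤ d → 0 < R → (∀ b, CC d r (c b)) →
    volume (frontier (Paths d r m K c R o)) = 0

/-- **LIMP** (as `S_LIM`, see `T/LIM.lean`: `tendsto_card_div_pow_atTop_volume` for the index type
`Fin K × Fin d`). By homogeneity of `c` the grid path `q` is in `PZ` iff `q / n` is in `Paths`. The
set `Paths` is bounded (`|p_i| < i R`) and measurable. -/
def S_LIMP : Prop :=
  ∀ (d r m K : ℕ) (c : Fin m → (Fin d → ℝ) → Fin r) (R : ℝ) (o : Fin K → Fin m),
    1 ≤ d → 0 < R → (∀ b, CC d r (c b)) →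
    volume (frontier (Paths d r m K c R o)) = 0 →
    Tendsto (fun n : ℕ => (wt d n) ^ K * ((PZ d r m K c R n o).ncard : ℝ)) atTop
      (𝓝 (volume.real (Paths d r m K c R o)))

/-- **FINP**. The set of the grid paths is finite. -/
def S_FINP : Prop :=
  ∀ (d r m K : ℕ) (c : Fin m → (Fin d → ℝ) → Fin r) (R : ℝ) (n : ℕ) (o : Fin K → Fin m),
    (PZ d r m K c R n o).Finite

/-- **COUNTP**. From PATHD: translation of the path by `- x` maps the paths in `A` from `x`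
injectively to `PZ`. -/
def S_COUNTP : Prop :=
  S_PATHD → S_FINP →
  ∀ (d r m K : ℕ) (c : Fin m → (Fin d → ℝ) → Fin r) (R : ℝ) (n : ℕ)
    (A : Finset (Fin d → ℤ)) (x : Fin d → ℤ),
    VV (NB d R n) (wt d n) (cZ c) K A x ≤
      (1 / (m : ℝ)) ^ K * ∑ o : Fin K → Fin m,
        (wt d n) ^ K * ((PZ d r m K c R n o).ncard : ℝ)

/-- **SCALEP**. `Paths` for `R` is the image of `Paths` for `1` by the homothety `R`. -/
def S_SCALEP : Prop :=
  ∀ (d r m K : ℕ) (c : Fin m → (Fin d → ℝ) → Fin r) (R : ℝ),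
    0 < R → (∀ b, CC d r (c b)) →
    pathVol d r m K c R = (R ^ d) ^ K * pathVol d r m K c 1

/-- **GEOF** (assembly). By NULLP, LIMP, COUNTP, for large `n` one has `VV_K ≤ ρ^K` for all `A`, `x`;
`vol` by UP with `C = bv d R + 1`; then FUNF. For `clique`: `NB d R n x y` means `|y - x| < n R`;
scale by `1 / (n R)` and use `CC.hom`, `CC.clique` (`n ≥ 1`). -/
def S_GEOF : Prop :=
  S_FUNF → S_NULLP → S_LIMP →
  (∀ (d r m K : ℕ) (c : Fin m → (Fin d → ℝ) → Fin r) (R : ℝ) (n : ℕ)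
    (A : Finset (Fin d → ℤ)) (x : Fin d → ℤ),
    VV (NB d R n) (wt d n) (cZ c) K A x ≤
      (1 / (m : ℝ)) ^ K * ∑ o : Fin K → Fin m,
        (wt d n) ^ K * ((PZ d r m K c R n o).ncard : ℝ)) →
  S_UP → S_BV →
  ∀ (d r m K : ℕ) (c : Fin m → (Fin d → ℝ) → Fin r) (R ρ : ℝ),
    1 ≤ d → 0 < R → 1 ≤ m → 1 ≤ K → (∀ b, CC d r (c b)) → 0 < ρ →
    pathVol d r m K c R < ρ ^ K →
    ∃ C B : ℝ, 0 < C ∧ 1 ≤ B ∧ GeoLimF d R r m C B ρ

open Classical in
/-- The six sectors of 60 degrees. -/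
noncomputable def sector (p : Fin 2 → ℝ) : Fin 6 :=
  if 0 ≤ p 1 then (if p 1 ≤ √3 * p 0 then 0 else if -p 1 ≤ √3 * p 0 then 1 else 2)
  else (if -p 1 ≤ √3 * p 0 then 5 else if p 1 ≤ √3 * p 0 then 4 else 3)

/-- **SEC2** (see `T/COL2.lean`: `csec`, `diam`, the null lines `LI`). -/
def S_SEC2 : Prop := CC 2 6 sector ∧ CC 2 6 (fun p => (sector p).rev)

open Classical in
/-- The 24 cones: the coordinate of the greatest modulus and the signs of the coordinates. -/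
noncomputable def cone24 (p : Fin 3 → ℝ) : Fin 24 :=
  Fin.ofNat 24 (8 * (if |p 1| ≤ |p 0| ∧ |p 2| ≤ |p 0| then 0 else if |p 2| ≤ |p 1| then 1 else 2) +
    (if 0 ≤ p 0 then 0 else 1) + (if 0 ≤ p 1 then 0 else 2) + (if 0 ≤ p 2 then 0 else 4))

/-- **SEC3** (see `T/COL3.lean`: `cone3`, `close`, `part1`, the null set `Nl`). -/
def S_SEC3 : Prop := CC 3 24 cone24 ∧ CC 3 24 (fun p => (cone24 p).rev)

/-- **SECD** (compare `T/COLD.lean`). Some colouring exists in every dimension. -/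
def S_SECD : Prop := ∀ d : ℕ, 1 ≤ d → ∃ (r : ℕ) (c : (Fin d → ℝ) → Fin r), CC d r c

end Pool.Agent.H288.HS
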