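import Pool.Agent.H288.HS.Fin
import Pool.Agent.H288.HS.Fin2
import Pool.Agent.H288.HS.Stm5

/-!
# Hard spheres: assembly of the criterion with paths
-/

set_option autoImplicit false

open MeasureTheory Set Filter Topology

namespace Pool.Agent.H288.HS

/-- The conclusion of `S_GEOF`. -/
def GeoAll : Prop :=
  ∀ (d r m K : ℕ) (c : Fin m → (Fin d → ℝ) → Fin r) (R ρ : ℝ),
    1 ≤ d → 0 < R → 1 ≤ m → 1 ≤ K → (∀ b, CC d r (c b)) → 0 < ρ →
    pathVol d r m K c R < ρ ^ K →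
    ∃ C B : ℝ, 0 < C ∧ 1 ≤ B ∧ GeoLimF d R r m C B ρ

theorem pathVol_nonneg (d r m K : ℕ) (c : Fin m → (Fin d → ℝ) → Fin r) (R : ℝ) :
    0 ≤ pathVol d r m K c R := by
  unfold pathVol
  have : 0 ≤ ∑ o : Fin K → Fin m, volume.real (Paths d r m K c R o) :=
    Finset.sum_nonneg fun o _ => measureReal_nonneg
  positivity

theorem GG_pos' {r : ℕ} (hr : 1 ≤ r) : 0 < GG r := by
  have : (0 : ℝ) < r := by exact_mod_cast hr
  unfold GG
  positivity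

/-- The choice of the contraction constant. -/
theorem exists_rho {g P : ℝ} {K : ℕ} (hK : 1 ≤ K) (hg : 0 < g) (hP : 0 ≤ P)
    (h : g ^ K * P < 1) : ∃ ρ : ℝ, 0 < ρ ∧ P < ρ ^ K ∧ g * ρ < 1 := by
  have hgK : 0 < g ^ K := pow_pos hg K
  have h1 : P < 1 / g ^ K := by
    rw [lt_div_iff₀ hgK]
    linarith [mul_comm P (g ^ K)]
  obtain ⟨s, hs1, hs2⟩ := exists_between h1
  have hs0 : 0 < s := lt_of_le_of_lt hP hs1
  have hKne : K ≠ 0 := by omega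
  have hpow : (s ^ ((K : ℝ)⁻¹)) ^ K = s := Real.rpow_inv_natCast_pow hs0.le hKne
  have hρ : 0 < s ^ ((K : ℝ)⁻¹) := Real.rpow_pos_of_pos hs0 _
  refine ⟨s ^ ((K : ℝ)⁻¹), hρ, by rw [hpow]; exact hs1, ?_⟩
  have h2 : (g * s ^ ((K : ℝ)⁻¹)) ^ K < 1 := by
    rw [mul_pow, hpow]
    rw [lt_div_iff₀ hgK] at hs2
    linarith [mul_comm s (g ^ K)]
  by_contra hcon
  push Not at hcon
  have h3 : 1 ≤ (g * s ^ ((K : ℝ)⁻¹)) ^ K := one_le_pow₀ hcon
  linarith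

/-- The criterion with paths. -/
theorem fin_paths (hBV : S_BV) (hFAM : S_FAM) (hPRESS : S_PRESS) (hANA : S_ANA)
    (hMONO : S_MONO) (hINV : S_INV) (hCAN : S_CAN) (hFREE : S_FREEF) (hG : GeoAll)
    (hS : S_SCALEP) (d r m K : ℕ) (c : Fin m → (Fin d → ℝ) → Fin r) (t : ℝ)
    (hd : 1 ≤ d) (hm : 1 ≤ m) (hK : 1 ≤ K) (hc : ∀ b, CC d r (c b)) (ht : 0 < t)
    (h : (t * GG r) ^ K * pathVol d r m K c 1 ≤ bv d 1 ^ K) :
    NoTransition d t := by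
  intro a₀ ha₀
  have hr : 1 ≤ r := by
    have h1 : 0 < r := lt_of_le_of_lt (Nat.zero_le _) (c ⟨0, hm⟩ (fun _ => 0)).isLt
    exact h1
  have hR : 0 < 2 * a₀ := by positivity
  obtain ⟨h1, h2, h3⟩ := hBV d (2 * a₀) hd hR
  have hV : 0 < bv d (2 * a₀) := by rw [h2]; positivity
  have hex : exclVol d a₀ = bv d (2 * a₀) := h1.symm
  have hz : ∀ L N, Zpart d a₀ L N = zz d (2 * a₀) L N := fun _ _ => rfl
  have hgr : ∀ L l, Grand d a₀ L l = ZM (zz d (2 * a₀)) L 0 l := by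
    intro L l
    simp only [Grand, ZM, hz, pow_zero, one_mul]
  have hFR : ∀ l₁ : ℝ, 0 < l₁ → l₁ * bv d (2 * a₀) < t →
      ∃ ε : ℝ, 0 < ε ∧ ∃ M : ℝ, 0 < M ∧ FreeR d (zz d (2 * a₀)) l₁ ε M := by
    intro l₁ hl hlt
    have hGGr := GG_pos' hr
    have hPn := pathVol_nonneg d r m K c (2 * a₀)
    have hkey : (l₁ * GG r) ^ K * pathVol d r m K c (2 * a₀) < 1 := by
      rw [hS d r m K c (2 * a₀) hR hc]
      have hx : 0 < (2 * a₀) ^ d := by positivity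
      have e1 : (l₁ * GG r) ^ K * (((2 * a₀) ^ d) ^ K * pathVol d r m K c 1) =
          (l₁ * (2 * a₀) ^ d / t) ^ K * ((t * GG r) ^ K * pathVol d r m K c 1) := by
        have e4 : l₁ * GG r * (2 * a₀) ^ d = l₁ * (2 * a₀) ^ d / t * (t * GG r) := by
          field_simp
        calc (l₁ * GG r) ^ K * (((2 * a₀) ^ d) ^ K * pathVol d r m K c 1)
            = (l₁ * GG r * (2 * a₀) ^ d) ^ K * pathVol d r m K c 1 := by
              rw [mul_pow (l₁ * GG r) ((2 * a₀) ^ d) K]; ring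
          _ = _ := by rw [e4, mul_pow (l₁ * (2 * a₀) ^ d / t) (t * GG r) K]; ring
      rw [e1]
      have e2 : (l₁ * (2 * a₀) ^ d / t) ^ K * ((t * GG r) ^ K * pathVol d r m K c 1) ≤
          (l₁ * (2 * a₀) ^ d / t) ^ K * bv d 1 ^ K :=
        mul_le_mul_of_nonneg_left h (by positivity)
      have e3 : (l₁ * (2 * a₀) ^ d / t) ^ K * bv d 1 ^ K = (l₁ * bv d (2 * a₀) / t) ^ K := by
        rw [h2, ← mul_pow]
        congr 1
        ring
      rw [e3] at e2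
      refine lt_of_le_of_lt e2 (pow_lt_one₀ (by positivity) ?_ (by omega))
      rw [div_lt_one ht]
      exact hlt
    obtain ⟨ρ, hρ, hρ1, hρ2⟩ := exists_rho hK (mul_pos hl hGGr) hPn hkey
    obtain ⟨C, B, hC, hB, hgeo⟩ := hG d r m K c (2 * a₀) ρ hd hR hm hK hc hρ hρ1
    exact hFREE d (2 * a₀) r m C B ρ l₁ hd hR hr hC hB hρ hl.le hρ2 hgeo
  obtain ⟨⟨p, hp⟩, f, hf⟩ := main_zzW hFAM hPRESS hANA hMONO hINV hCAN d (2 * a₀)
    t hd hR ht hV hFR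
  rw [hex]
  refine ⟨⟨p, ?_⟩, f, ?_⟩
  · simpa only [hgr] using hp
  · intro ρ hρ
    exact ⟨⟨(hf ρ hρ).1.1, (hf ρ hρ).1.2⟩, (hf ρ hρ).2⟩

end Pool.Agent.H288.HS
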