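import Pool.Agent.H288.HS.Fin
import Pool.Agent.H288.HS.Fin2
import Pool.Agent.H288.HS.Fin3

/-!
# Hard spheres: the explicit bound in every dimension
-/

set_option autoImplicit false

namespace Pool.Agent.H288.HS

/-- The bound for the activity times the excluded volume, in dimension `d`:
`(7/6) (8/7)^8 / (131/200)` for `d = 2`, `(25/24) (26/25)^26 / (153/200)` for `d = 3` and
`e / (1 - 2^(-d-1))` otherwise. -/
noncomputable def tmax (d : ℕ) : ℝ :=
  if d = 2 then 7 / 6 * (8 / 7) ^ 8 / (131 / 200)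
  else if d = 3 then 25 / 24 * (26 / 25) ^ 26 / (153 / 200)
  else Real.exp 1 / (1 - 1 / 2 ^ (d + 1))

theorem fin_all (h2 : NoTransition 2 (7 / 6 * (8 / 7) ^ 8 / (131 / 200)))
    (h3 : NoTransition 3 (25 / 24 * (26 / 25) ^ 26 / (153 / 200)))
    (h : ∀ d : ℕ, 1 ≤ d → NoTransition d (Real.exp 1 / (1 - 1 / 2 ^ (d + 1)))) :
    (∀ d : ℕ, 1 ≤ d → NoTransition d (tmax d)) ∧ 5.18 < tmax 2 ∧ 3.77 < tmax 3 := by
  refine ⟨fun d hd => ?_, ?_, ?_⟩
  · unfold tmax
    split_ifs with h4 h5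
    · rw [h4]; exact h2
    · rw [h5]; exact h3
    · exact h d hd
  · have : tmax 2 = 7 / 6 * (8 / 7) ^ 8 / (131 / 200) := by unfold tmax; simp
    rw [this]; exact tW_gt
  · have : tmax 3 = 25 / 24 * (26 / 25) ^ 26 / (153 / 200) := by unfold tmax; simp
    rw [this]; exact tW3_gt

end Pool.Agent.H288.HS
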