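import Pool.Agent.H288.HS.Stm2

/-!
# Hard spheres in every dimension: the lens of two balls whose centres are at distance `R`
-/

set_option autoImplicit false

open MeasureTheory Set Filter Topology

namespace Pool.Agent.H288.HS

/-- The volume of the intersection of two unit balls whose centres are at distance `1`. -/
noncomputable def lensv (d : ℕ) : ℝ :=
  volume.real (Bs d 1 ∩ Bc d (fun k => if (k : ℕ) = 0 then 1 else 0) 1)

/-- **LENSX** (compare `T/LENS2.lean`, `T/LENS3.lean`, `T/LENSD.lean`). If `u ≠ 0`, put
`u' = (R / |u|) u`; by convexity of `t ↦ |x - t u'|` the lens of `u'` is contained in the lens of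
`u` (`u = t u'`, `0 < t < 1`); by an orthogonal map (for instance a reflection) which maps `u'` to
`R e_0` and the homothety `R` the lens of `u'` has the volume `R^d lensv d`. -/
def S_LENSX : Prop :=
  ∀ (d : ℕ) (R : ℝ), 1 ≤ d → 0 < R → ∀ u : Fin d → ℝ, ∑ k, u k ^ 2 < R ^ 2 →
    R ^ d * lensv d ≤ volume.real (Bs d R ∩ Bc d u R)

end Pool.Agent.H288.HS
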