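import Pool.Agent.H288.HS.Fin
import Pool.Agent.H288.HS.Fin2
import Pool.Agent.H288.HS.Fin3
import Pool.Agent.H288.HS.Stm6

/-!
# Hard spheres: the explicit bound in every dimension, with the sharp lens
-/

set_option autoImplicit false

open MeasureTheory Set Filter Topology

namespace Pool.Agent.H288.HS

/-- The bound for the activity times the excluded volume, in dimension `d`:
`(7/6) (8/7)^8 / (131/200)` for `d = 2`, `(25/24) (26/25)^26 / (153/200)` for `d = 3` and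
`e / (1 - λ / 2)` otherwise, where `λ = lensv d / bv d 1` is the volume of the intersection of two
unit balls whose centres are at distance `1`, divided by the volume of the unit ball. -/
noncomputable def tmx (d : ℕ) : ℝ :=
  if d = 2 then 7 / 6 * (8 / 7) ^ 8 / (131 / 200)
  else if d = 3 then 25 / 24 * (26 / 25) ^ 26 / (153 / 200)
  else Real.exp 1 / (1 - lensv d / bv d 1 / 2)

theorem bs_bdd (d : ℕ) (R : ℝ) : Bornology.IsBounded (Bs d R) := by
  refine (Metric.isBounded_closedBall (x := (0 : Fin d → ℝ)) (r := |R|)).subset ?_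
  intro x hx
  rw [mem_closedBall_zero_iff, pi_norm_le_iff_of_nonneg (abs_nonneg R)]
  intro k
  have h1 : x k ^ 2 ≤ ∑ j, x j ^ 2 :=
    Finset.single_le_sum (f := fun j => x j ^ 2) (fun j _ => sq_nonneg _) (Finset.mem_univ k)
  have h2 : ∑ j, x j ^ 2 < R ^ 2 := hx
  rw [Real.norm_eq_abs]
  exact sq_le_sq.1 (by linarith)

theorem lensv_le (d : ℕ) : lensv d ≤ bv d 1 := by
  unfold lensv bv
  exact measureReal_mono inter_subset_left (bs_bdd d 1).measure_lt_top.ne

theorem fin_dX (h : AllS) (hL : S_LENSX) (d : ℕ) (hd : 1 ≤ d) :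
    NoTransition d (Real.exp 1 / (1 - lensv d / bv d 1 / 2)) := by
  obtain ⟨_, _, hb1⟩ := h.bv d 1 hd one_pos
  have hlam : lensv d / bv d 1 ≤ 1 := by
    rw [div_le_one hb1]; exact lensv_le d
  have h2 : (0:ℝ) < 1 - lensv d / bv d 1 / 2 := by linarith
  have ht : 0 < Real.exp 1 / (1 - lensv d / bv d 1 / 2) := by positivity
  have hl0 : 0 ≤ lensv d := measureReal_nonneg
  intro a₀ ha₀
  have hR : 0 < 2 * a₀ := by positivity
  obtain ⟨r, hr, c, hc⟩ := h.cold d (2 * a₀) hd hR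
  have hV := bv_pos h.bv d (2 * a₀) hd hR
  have hG : GeoLim d (2 * a₀) r (bv d (2 * a₀))
      (bv d (2 * a₀) - ((2 * a₀) ^ d * lensv d + 0) / 2) := by
    refine h.geo d (2 * a₀) r ((2 * a₀) ^ d * lensv d) 0 c hd hR (by positivity)
      (hL d (2 * a₀) hd hR) hc ?_
    intro δ hδ
    filter_upwards with n j
    have h3 : 0 ≤ wt d n := by unfold wt; positivity
    have : 0 ≤ wt d n * ({z : Fin d → ℤ | ∑ k, (z k : ℝ) ^ 2 < (n * (2 * a₀)) ^ 2 ∧
      c n z = j}.ncard : ℝ) := by positivity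
    linarith
  obtain ⟨h1, h2', h3⟩ := h.bv d (2 * a₀) hd hR
  have e : bv d (2 * a₀) - ((2 * a₀) ^ d * lensv d + 0) / 2 =
      bv d (2 * a₀) * (1 - lensv d / bv d 1 / 2) := by
    rw [h2']
    field_simp
    ring
  rw [e] at hG
  have hex : exclVol d a₀ = bv d (2 * a₀) := h1.symm
  have hz : ∀ L N, Zpart d a₀ L N = zz d (2 * a₀) L N := fun _ _ => rfl
  have hgr : ∀ L l, Grand d a₀ L l = ZM (zz d (2 * a₀)) L 0 l := by
    intro L l
    simp only [Grand, ZM, hz, pow_zero, one_mul]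
  obtain ⟨hg0, hg1⟩ := h.gge r hr
  have hta : ∀ l : ℝ, 0 ≤ l → l * bv d (2 * a₀) < Real.exp 1 / (1 - lensv d / bv d 1 / 2) →
      l * GG r * (bv d (2 * a₀) * (1 - lensv d / bv d 1 / 2)) < 1 := by
    intro l hl hlt
    rw [lt_div_iff₀ h2] at hlt
    have h4 : l * GG r * (bv d (2 * a₀) * (1 - lensv d / bv d 1 / 2)) =
        GG r * (l * bv d (2 * a₀) * (1 - lensv d / bv d 1 / 2)) := by ring
    rw [h4]
    calc GG r * (l * bv d (2 * a₀) * (1 - lensv d / bv d 1 / 2))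
        < GG r * Real.exp 1 := by
          exact mul_lt_mul_of_pos_left hlt hg0
      _ ≤ Real.exp (-1) * Real.exp 1 := by
          exact mul_le_mul_of_nonneg_right hg1 (Real.exp_pos 1).le
      _ = 1 := by rw [← Real.exp_add]; simp
  obtain ⟨⟨p, hp⟩, f, hf⟩ := main_zz h.fam h.free h.press h.ana h.mono h.inv h.can d (2 * a₀) _
    (bv d (2 * a₀) * (1 - lensv d / bv d 1 / 2)) r hd hR hr ht (by positivity) hV hG hta
  rw [hex]
  refine ⟨⟨p, ?_⟩, f, ?_⟩
  · simpa only [hgr] using hp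
  · intro ρ hρ
    exact ⟨⟨(hf ρ hρ).1.1, (hf ρ hρ).1.2⟩, (hf ρ hρ).2⟩

theorem fin_allX (h2 : NoTransition 2 (7 / 6 * (8 / 7) ^ 8 / (131 / 200)))
    (h3 : NoTransition 3 (25 / 24 * (26 / 25) ^ 26 / (153 / 200)))
    (h : ∀ d : ℕ, 1 ≤ d → NoTransition d (Real.exp 1 / (1 - lensv d / bv d 1 / 2))) :
    (∀ d : ℕ, 1 ≤ d → NoTransition d (tmx d)) ∧ 5.18 < tmx 2 ∧ 3.77 < tmx 3 := by
  refine ⟨fun d hd => ?_, ?_, ?_⟩
  · unfold tmx
    split_ifs with h4 h5
    · rw [h4]; exact h2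
    · rw [h5]; exact h3
    · exact h d hd
  · have : tmx 2 = 7 / 6 * (8 / 7) ^ 8 / (131 / 200) := by unfold tmx; simp
    rw [this]; exact tW_gt
  · have : tmx 3 = 25 / 24 * (26 / 25) ^ 26 / (153 / 200) := by unfold tmx; simp
    rw [this]; exact tW3_gt

end Pool.Agent.H288.HS
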