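import Pool.Agent.H288.HS.Stm2

/-!
# Hard spheres: assembly
-/

set_option autoImplicit false

open MeasureTheory Set Filter Topology

namespace Pool.Agent.H288.HS

/-- Below the activity `t / V` the pressure exists and is analytic, and below the density
`t / (1 + t) / V` the free energy exists and is analytic; `V = exclVol d a` is the volume of the
ball of radius `2a`. -/
def NoTransition (d : ℕ) (t : ℝ) : Prop := ∀ a : ℝ, 0 < a →
  (∃ p : ℝ → ℝ, ∀ l ∈ Set.Ioo 0 (t / exclVol d a),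
    Tendsto (fun L : ℝ => Real.log (Grand d a L l) / L ^ d) atTop (𝓝 (p l)) ∧
      AnalyticAt ℝ p l) ∧
  (∃ f : ℝ → ℝ, ∀ ρ ∈ Set.Ioo 0 (t / (1 + t) / exclVol d a),
    IsFreeEnergy d a ρ (f ρ) ∧ AnalyticAt ℝ f ρ)

theorem thermo_neBot (d : ℕ) (hd : 1 ≤ d) (ρ : ℝ) (hρ : 0 < ρ) : (thermo d ρ).NeBot := by
  have h0 : Tendsto (fun j : ℕ => (j : ℝ) ^ d) atTop atTop :=
    (tendsto_pow_atTop (by omega)).comp tendsto_natCast_atTop_atTop
  have h1 : Tendsto (fun j : ℕ => (⌊ρ * (j : ℝ) ^ d⌋₊, (j : ℝ))) atTop (thermo d ρ) := by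
    refine tendsto_inf.2 ⟨?_, ?_⟩
    · refine Tendsto.prodMk ?_ tendsto_natCast_atTop_atTop
      exact tendsto_nat_floor_atTop.comp (h0.const_mul_atTop hρ)
    · rw [tendsto_comap_iff]
      exact (tendsto_nat_floor_mul_div_atTop hρ.le).comp h0
  exact h1.neBot

theorem main_zz (hFAM : S_FAM) (hFREE : S_FREE) (hPRESS : S_PRESS) (hANA : S_ANA)
    (hMONO : S_MONO) (hINV : S_INV) (hCAN : S_CAN)
    (d : ℕ) (R t a : ℝ) (r : ℕ) (hd : 1 ≤ d) (hR : 0 < R) (hr : 1 ≤ r) (ht : 0 < t)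
    (ha : 0 < a) (hV : 0 < bv d R) (hG : GeoLim d R r (bv d R) a)
    (hta : ∀ l : ℝ, 0 ≤ l → l * bv d R < t → l * GG r * a < 1) :
    (∃ p : ℝ → ℝ, ∀ l ∈ Set.Ioo 0 (t / bv d R),
      Tendsto (fun L : ℝ => Real.log (ZM (zz d R) L 0 l) / L ^ d) atTop (𝓝 (p l)) ∧
        AnalyticAt ℝ p l) ∧
    (∃ f : ℝ → ℝ, ∀ ρ ∈ Set.Ioo 0 (t / (1 + t) / bv d R),
      ((∀ᶠ q in thermo d ρ, 0 < zz d R q.2 q.1) ∧
        Tendsto (fun q : ℕ × ℝ => -(Real.log (zz d R q.2 q.1)) / q.1) (thermo d ρ)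
          (𝓝 (f ρ))) ∧ AnalyticAt ℝ f ρ) := by
  set V := bv d R with hVdef
  have hF := hFAM d R hd hR
  have hp : ∀ l : ℝ, ∃ p : ℝ, 0 ≤ l →
      Tendsto (fun L : ℝ => Real.log (ZM (zz d R) L 0 l) / L ^ d) atTop (𝓝 p) := by
    intro l
    by_cases hl : 0 ≤ l
    · obtain ⟨p, h⟩ := hPRESS d V (zz d R) hd hV.le hF l hl
      exact ⟨p, fun _ => h⟩
    · exact ⟨0, fun h => absurd h hl⟩
  choose p hp using hp
  have hana : ∀ l₁ : ℝ, 0 < l₁ → l₁ * V < t → ∀ s ∈ Set.Ioo 0 l₁, AnalyticAt ℝ p s := by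
    intro l₁ h1 h2
    obtain ⟨ε, hε, M, hM, hFr⟩ := hFREE d R r V a l₁ hd hR hr hV ha h1.le (hta l₁ h1.le h2) hG
    exact hANA d V (zz d R) l₁ ε M hd hV.le h1 hε hM hF hFr p hp
  refine ⟨⟨p, ?_⟩, ?_⟩
  · intro l hl
    refine ⟨hp l hl.1.le, ?_⟩
    have h1 : l * V < t := by
      have := hl.2
      rwa [lt_div_iff₀ hV] at this
    have h2 : (l + t / V) / 2 * V < t := by
      have : (l + t / V) / 2 * V = (l * V + t) / 2 := by field_simp
      rw [this]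
      linarith
    exact hana ((l + t / V) / 2) (by have := hl.1; have := div_pos ht hV; linarith) h2 l
      ⟨hl.1, by have := hl.2; linarith⟩
  · refine ⟨fun ρ => limUnder (thermo d ρ)
      (fun q : ℕ × ℝ => -(Real.log (zz d R q.2 q.1)) / q.1), ?_⟩
    intro ρ hρ
    have hρ0 := hρ.1
    have hVρ : V * ρ * (1 + t) < t := by
      have h1 := hρ.2
      rw [div_div, lt_div_iff₀ (by positivity)] at h1
      nlinarith
    have hVρ1 : V * ρ < 1 := by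
      have : 0 < V * ρ := by positivity
      nlinarith
    have hlt : ρ / (1 - V * ρ) < t / V := by
      rw [div_lt_div_iff₀ (by linarith) hV]
      nlinarith
    obtain ⟨l₁, h1, h2⟩ := exists_between hlt
    have hl₁ : 0 < l₁ := lt_trans (div_pos hρ0 (by linarith)) h1
    have hl₁t : l₁ * V < t := by rwa [lt_div_iff₀ hV] at h2
    have hρl : ρ < l₁ / (1 + V * l₁) := by
      rw [div_lt_iff₀ (by linarith)] at h1
      rw [lt_div_iff₀ (by positivity)]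
      nlinarith
    have hA := hana l₁ hl₁ hl₁t
    obtain ⟨hm1, hm2⟩ := hMONO d V (zz d R) l₁ hd hV.le hl₁ hF p hp hA
    obtain ⟨hsm, g, hg⟩ := hINV V l₁ p hV.le hl₁ hA hm1 hm2
    have hdp : ∀ s ∈ Set.Ioo 0 l₁, 0 < deriv p s := by
      intro s hs
      have h3 := (hm1 s hs).1
      have h4 : 0 < 1 + V * s := by have := hs.1; positivity
      by_contra hcon
      push Not at hcon
      nlinarith
    have hcan := hCAN d V (zz d R) l₁ hd hV.le hl₁ hF p hp hA hdp hsm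
    have hcan' : ∀ ρ' ∈ Set.Ioo 0 (l₁ / (1 + V * l₁)),
        (∀ᶠ q in thermo d ρ', 0 < zz d R q.2 q.1) ∧
        Tendsto (fun q : ℕ × ℝ => -(Real.log (zz d R q.2 q.1)) / q.1) (thermo d ρ')
          (𝓝 (Real.log (g ρ') - p (g ρ') / ρ')) := by
      intro ρ' hρ'
      obtain ⟨h3, h4, _⟩ := hg ρ' hρ'
      have h5 := hcan (g ρ') h3
      rwa [h4] at h5
    have hlim : ∀ ρ' ∈ Set.Ioo 0 (l₁ / (1 + V * l₁)),
        limUnder (thermo d ρ') (fun q : ℕ × ℝ => -(Real.log (zz d R q.2 q.1)) / q.1) =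
          Real.log (g ρ') - p (g ρ') / ρ' := by
      intro ρ' hρ'
      have := thermo_neBot d hd ρ' hρ'.1
      exact (hcan' ρ' hρ').2.limUnder_eq
    refine ⟨⟨(hcan' ρ ⟨hρ0, hρl⟩).1, ?_⟩, ?_⟩
    · show Tendsto _ _ (𝓝 (limUnder (thermo d ρ)
        (fun q : ℕ × ℝ => -(Real.log (zz d R q.2 q.1)) / q.1)))
      rw [hlim ρ ⟨hρ0, hρl⟩]
      exact (hcan' ρ ⟨hρ0, hρl⟩).2
    · obtain ⟨h3, h4, h5⟩ := hg ρ ⟨hρ0, hρl⟩
      have h6 : AnalyticAt ℝ (fun ρ' => Real.log (g ρ') - p (g ρ') / ρ') ρ := by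
        have h7 : AnalyticAt ℝ p (g ρ) := hA _ h3
        have h8 : AnalyticAt ℝ (fun ρ' => p (g ρ')) ρ := h7.comp h5
        exact (h5.log h3.1).sub (h8.div analyticAt_id hρ0.ne')
      refine h6.congr ?_
      filter_upwards [Ioo_mem_nhds hρ0 hρl] with ρ' hρ'
      exact (hlim ρ' hρ').symm

theorem main (hBV : S_BV) (hFAM : S_FAM) (hFREE : S_FREE) (hPRESS : S_PRESS) (hANA : S_ANA)
    (hMONO : S_MONO) (hINV : S_INV) (hCAN : S_CAN)
    (d : ℕ) (t : ℝ) (r : ℕ) (hd : 1 ≤ d) (hr : 1 ≤ r) (ht : 0 < t)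
    (a : ℝ → ℝ) (ha : ∀ R, 0 < R → 0 < a R) (hG : ∀ R, 0 < R → GeoLim d R r (bv d R) (a R))
    (hta : ∀ R, 0 < R → ∀ l : ℝ, 0 ≤ l → l * bv d R < t → l * GG r * a R < 1) :
    NoTransition d t := by
  intro a₀ ha₀
  have hR : 0 < 2 * a₀ := by positivity
  obtain ⟨h1, h2, h3⟩ := hBV d (2 * a₀) hd hR
  have hV : 0 < bv d (2 * a₀) := by rw [h2]; positivity
  have hex : exclVol d a₀ = bv d (2 * a₀) := h1.symm
  have hz : ∀ L N, Zpart d a₀ L N = zz d (2 * a₀) L N := fun _ _ => rfl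
  have hgr : ∀ L l, Grand d a₀ L l = ZM (zz d (2 * a₀)) L 0 l := by
    intro L l
    simp only [Grand, ZM, hz, pow_zero, one_mul]
  obtain ⟨⟨p, hp⟩, f, hf⟩ := main_zz hFAM hFREE hPRESS hANA hMONO hINV hCAN d (2 * a₀) t (a (2 * a₀))
    r hd hR hr ht (ha _ hR) hV (hG _ hR) (hta _ hR)
  rw [hex]
  refine ⟨⟨p, ?_⟩, f, ?_⟩
  · simpa only [hgr] using hp
  · intro ρ hρ
    exact ⟨⟨(hf ρ hρ).1.1, (hf ρ hρ).1.2⟩, (hf ρ hρ).2⟩

end Pool.Agent.H288.HS
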