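import Pool.Agent.H288.HS.Defs

/-!
# Hard-core gases: the statements of the proof

Every statement `S_...` is a closed proposition; its paper proof is in the docstring.
-/

set_option autoImplicit false

open MeasureTheory Set Filter Topology

namespace Pool.Agent.H288.HS

/-! ## Part A: finite gases -/

/-- **STEP** (removing a clique). `A` is the disjoint union of `B` and the clique `Q`. An
independent subset of `A` has at most one point in `Q`; it is either an independent subset of `B`,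
or `{y} ∪ J` with `y ∈ Q` and `J` an independent subset of `B` without the points excluded by `y`
(note `N y y`, so `y` is not in `rem N B y`; and `y ∉ B`). -/
def S_STEP : Prop :=
  ∀ (V : Type) (N : V → V → Prop) (w : ℝ) (A B Q : Finset V) (l : ℂ),
    (∀ x, N x x) → (∀ x y, N x y → N y x) →
    (∀ z, z ∈ A ↔ z ∈ B ∨ z ∈ Q) → (∀ z, z ∈ B → z ∉ Q) → (∀ y ∈ Q, ∀ z ∈ Q, N y z) →
    Z N w A l = Z N w B l + l * w * ∑ y ∈ Q, Z N w (rem N B y) l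

/-- **CHAIN** (the recursion). `Z (lev k) = Z (lev (k+1)) (1 + SS_k)` by `S_STEP` with `A = lev k`,
`B = lev (k+1)`, `Q = cl k`; `lev 0 = A`, `lev r = rem N A x`. The derivative of `SS_k` is `SD_k`
since the derivative of `W_y` is `W_y DD_y` (here `Z (rem ..) ≠ 0` is used). -/
def S_CHAIN : Prop :=
  ∀ (V : Type) (N : V → V → Prop) (w : ℝ) (r : ℕ) (col : V → V → Fin r) (C a : ℝ),
    Geo N w r col C a → ∀ (A : Finset V) (x : V) (l : ℂ),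
    (∀ k ≤ r, Z N w (lev N col A x k) l ≠ 0) →
    (∀ k < r, ∀ y ∈ cl N col A x k, Z N w (rem N (lev N col A x (k + 1)) y) l ≠ 0) →
    (∀ k < r, 1 + SS N w col A x k l ≠ 0) ∧
    W N w A x l = ∏ k ∈ Finset.range r, (1 + SS N w col A x k l)⁻¹ ∧
    DD N w A x l = - ∑ k ∈ Finset.range r, SD N w col A x k l / (1 + SS N w col A x k l)

/-- **REAL** (real nonnegative activities). `Z A` is real and at least 1 (the empty set);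
`W ≤ 1` since `rem N A x ⊆ A`; and `Z A ≤ (1 + s w)^{#nb} Z (rem N A x)` by removing the points of
`nb N A x` one by one (`Z (B ∪ {y}) ≤ (1 + s w) Z B`), so `W ≥ exp (- s w #nb) ≥ exp (- s C)`. -/
def S_REAL : Prop :=
  ∀ (V : Type) (N : V → V → Prop) (w C : ℝ), 0 < w → (∀ x, N x x) → (∀ x y, N x y → N y x) →
    (∀ (A : Finset V) (x : V), w * ((nb N A x).card : ℝ) ≤ C) →
    ∀ (s : ℝ), 0 ≤ s → ∀ (A : Finset V),
      (∃ ζ : ℝ, 1 ≤ ζ ∧ Z N w A (s : ℂ) = (ζ : ℂ)) ∧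
      ∀ x : V, ∃ ω : ℝ, Real.exp (-(s * C)) ≤ ω ∧ ω ≤ 1 ∧ W N w A x (s : ℂ) = (ω : ℂ)

/-- **CLOSE**. On the segment from `c` to `z` let `F(t) = f(c + t (z - c)) - f(c)`. By
`image_norm_le_of_norm_deriv_right_le_deriv_boundary` (or a variant) with the bound
`B(t) = 2 K ε t`: where `‖F(t)‖ = B(t) ≤ 2Kε ≤ 1` we have `‖f‖ ≤ 2`, hence
`‖F'(t)‖ ≤ ε K √2 ≤ 2 K ε`. -/
def S_CLOSE : Prop :=
  ∀ (f : ℂ → ℂ) (c : ℂ) (ε K : ℝ), 0 < ε → 0 ≤ K → 2 * K * ε ≤ 1 →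
    (∀ z ∈ Metric.ball c ε, DifferentiableAt ℂ f z ∧ ‖deriv f z‖ ^ 2 ≤ K ^ 2 * ‖f z‖) →
    ‖f c‖ ≤ 1 → ∀ z ∈ Metric.ball c ε, ‖f z - f c‖ ≤ 2 * K * ε

/-- **INEQ** (the contraction). First `∏ u⁻¹ ≤ (1-κ)^{-r} ∏ (1+σ)⁻¹` and `T/u ≤ (1-κ)⁻¹ T/(1+σ)`,
so the powers of `1-κ` are at most `(1-κ)^{-(r/2+1)} ≤ (1-κ)^{-(r+1)}`. The `B` part is at most
`∑ B`. The other part is at most `√lam √(∏ (1+σ)⁻¹) ∑ (√σ/(1+σ)) √J ≤
√(lam · ∏ (1+σ)⁻¹ ∑ σ/(1+σ)² · ∑ J)` (Cauchy-Schwarz). With `x_k = 1/(1+σ_k) ∈ (0,1]` and `m` the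
mean of the `x_k`, `∏ x_k · ∑ x_k (1-x_k) ≤ m^r · r m (1-m)` (AM-GM and concavity), and
`r m^{r+1} (1-m) ≤ r ((r+1)/(r+2))^{r+1} / (r+2) = GG r` (AM-GM for `r+1` numbers `m/(r+1)`
and one number `1-m`). -/
def S_INEQ : Prop :=
  ∀ (r : ℕ) (κ lam : ℝ) (σ J B T u : ℕ → ℝ), 1 ≤ r → 0 ≤ κ → κ < 1 → 0 ≤ lam →
    (∀ k < r, 0 ≤ σ k ∧ 0 ≤ J k ∧ 0 ≤ B k ∧ 0 ≤ T k ∧ T k ≤ B k + √(lam * σ k * J k) ∧
      (1 - κ) * (1 + σ k) ≤ u k) →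
    √(∏ k ∈ Finset.range r, (u k)⁻¹) * ∑ k ∈ Finset.range r, T k / u k ≤
      ((1 - κ)⁻¹) ^ (r + 1) * (∑ k ∈ Finset.range r, B k +
        √(lam * GG r * ∑ k ∈ Finset.range r, J k))

/-- The two-step measure: `∑` over the excluded points `y ∈ A` of the measure of the points of `A`
which are excluded by `y` and not yet removed. -/
noncomputable def EE {V : Type} {r : ℕ} (N : V → V → Prop) (w : ℝ) (col : V → V → Fin r)
    (A : Finset V) (x : V) : ℝ :=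
  ∑ k ∈ Finset.range r, w * ∑ y ∈ cl N col A x k,
    w * ((nb N (lev N col A x (k + 1)) y).card : ℝ)

/-- **PAIR** (reversing the order of the cliques). The reversed colouring is again a clique
covering, and `EE col + EE (rev col) ≤ 2 a w #(nb N A x)`: for `y ∈ nb N A x` the point `z ∈ A` with
`N y z` is counted twice if `¬ N x z`, once if `N x z` and `col x z ≠ col x y`, and never if
`N x z` and `col x z = col x y`; this is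
`2 #(nb N A y) - #{z ∈ A, N x z, N y z} - #{z ∈ A, N x z, col x z = col x y}` by `clique`. -/
def S_PAIR : Prop :=
  ∀ (V : Type) (N : V → V → Prop) (w : ℝ) (r : ℕ) (col : V → V → Fin r) (C a : ℝ),
    Geo N w r col C a →
    Geo N w r (fun x y => (col x y).rev) C a ∧
    ∀ (A : Finset V) (x : V),
      EE N w col A x + EE N w (fun x y => (col x y).rev) A x ≤
        2 * a * (w * ((nb N A x).card : ℝ))

/-- **ONE** (the one-step estimate; from `S_CHAIN` and `S_INEQ`). Put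
`σ_k = ‖l‖ w ∑_{y ∈ cl k} ‖W_y‖`, `J_k = w ∑_{y ∈ cl k} ‖W_y‖ ‖DD_y‖²`, `B_k = 2 w #(cl k)`,
`T_k = ‖SD_k‖`, `u_k = ‖1 + SS_k‖`, `κ = 2 η C`. Since `‖l W_y - t_y‖ ≤ η` with `t_y ≥ 0` real,
`‖l W_y - ‖l W_y‖‖ ≤ 2η`, so `‖SS_k - σ_k‖ ≤ 2 η w #(cl k) ≤ 2 η C` and
`u_k ≥ 1 + σ_k - 2ηC ≥ (1-κ)(1+σ_k)`. By Cauchy-Schwarz
`T_k ≤ w ∑ ‖W_y‖ + ‖l‖ w ∑ ‖W_y‖ ‖DD_y‖ ≤ B_k + √(‖l‖ σ_k J_k)`. And
`∑_k J_k ≤ M² EE`, `∑_k B_k = 2 w #(nb N A x)`. -/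
def S_ONE : Prop :=
  ∀ (V : Type) (N : V → V → Prop) (w : ℝ) (r : ℕ) (col : V → V → Fin r) (C a : ℝ), 1 ≤ r →
    Geo N w r col C a → ∀ (A : Finset V) (x : V) (l : ℂ) (M η : ℝ), 0 ≤ M → 0 ≤ η → 2 * η * C < 1 →
    (∀ k ≤ r, Z N w (lev N col A x k) l ≠ 0) →
    (∀ k < r, ∀ y ∈ cl N col A x k,
      Z N w (rem N (lev N col A x (k + 1)) y) l ≠ 0 ∧
      ‖W N w (lev N col A x (k + 1)) y l‖ ≤ 2 ∧
      ‖W N w (lev N col A x (k + 1)) y l‖ * ‖DD N w (lev N col A x (k + 1)) y l‖ ^ 2 ≤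
        M ^ 2 * (w * ((nb N (lev N col A x (k + 1)) y).card : ℝ)) ∧
      ∃ t : ℝ, 0 ≤ t ∧ ‖l * W N w (lev N col A x (k + 1)) y l - (t : ℂ)‖ ≤ η) →
    √‖W N w A x l‖ * ‖DD N w A x l‖ ≤ ((1 - 2 * η * C)⁻¹) ^ (r + 1) *
      (2 * (w * ((nb N A x).card : ℝ)) + √(‖l‖ * GG r * (M ^ 2 * EE N w col A x)))

/-- **NEAR** (from `S_REAL` and `S_CLOSE`). Let `l ∈ Om l₁ ε`, `‖l - s‖ < ε`. The ball of centre
`s` and radius `ε` is in `Om l₁ ε`; `f = W N w A x` is differentiable there with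
`deriv f = f * DD`, so `‖deriv f‖² ≤ M² C ‖f‖`; `f s = ω ∈ [exp (-(l₁ C)), 1]`. By `S_CLOSE` with
`K = M √C`, `‖f l - ω‖ ≤ 2 M √C ε`. -/
def S_NEAR : Prop :=
  ∀ (V : Type) (N : V → V → Prop) (w : ℝ) (r : ℕ) (col : V → V → Fin r) (C a : ℝ),
    Geo N w r col C a → ∀ (l₁ ε M : ℝ), 0 ≤ l₁ → 0 < ε → 0 ≤ M → 0 < C →
    2 * (M * √C) * ε ≤ Real.exp (-(l₁ * C)) / 2 →
    ∀ (A : Finset V) (x : V),
      (∀ l ∈ Om l₁ ε, Z N w A l ≠ 0 ∧ Z N w (rem N A x) l ≠ 0 ∧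
        ‖W N w A x l‖ * ‖DD N w A x l‖ ^ 2 ≤ M ^ 2 * (w * ((nb N A x).card : ℝ))) →
      ∀ l ∈ Om l₁ ε, ‖W N w A x l‖ ≤ 2 ∧ Real.exp (-(l₁ * C)) / 2 ≤ ‖W N w A x l‖ ∧
        ∃ t : ℝ, 0 ≤ t ∧ ‖l * W N w A x l - (t : ℂ)‖ ≤ 2 * ε + l₁ * (2 * (M * √C) * ε)

/-- **CONST** (choice of the constants). With `θ = √(l₁ GG r a) < 1` take `M = 8 √C / (1 - θ)`
(so that `4 √C + (1+θ)/2 · M ≤ M`) and then `ε` small. -/
def S_CONST : Prop :=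
  ∀ (r : ℕ) (C a l₁ : ℝ), 1 ≤ r → 0 < C → 0 < a → 0 ≤ l₁ → l₁ * GG r * a < 1 →
    ∃ M : ℝ, 0 < M ∧ ∃ ε : ℝ, 0 < ε ∧
      2 * (M * √C) * ε ≤ Real.exp (-(l₁ * C)) / 2 ∧
      2 * (2 * ε + l₁ * (2 * (M * √C) * ε)) * C < 1 ∧
      ((1 - 2 * (2 * ε + l₁ * (2 * (M * √C) * ε)) * C)⁻¹) ^ (r + 1) *
        (2 * √C + √((l₁ + ε) * GG r * a) * M) ≤ M

/-- **MAIN** (uniform zero-free region and derivative bound). Strong induction on `#A`. -/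
def S_MAIN : Prop :=
  ∀ (r : ℕ) (C a l₁ : ℝ), 1 ≤ r → 0 < C → 0 < a → 0 ≤ l₁ → l₁ * GG r * a < 1 →
    ∃ ε : ℝ, 0 < ε ∧ ∃ M : ℝ, 0 < M ∧ ∃ ω₀ : ℝ, 0 < ω₀ ∧
      ∀ (V : Type) (N : V → V → Prop) (w : ℝ) (col : V → V → Fin r), Geo N w r col C a →
        ∀ (A : Finset V) (l : ℂ), l ∈ Om l₁ ε →
          Z N w A l ≠ 0 ∧
          ∀ x : V, ‖W N w A x l‖ * ‖DD N w A x l‖ ^ 2 ≤ M ^ 2 * (w * ((nb N A x).card : ℝ)) ∧
            ‖W N w A x l‖ ≤ 2 ∧ ω₀ ≤ ‖W N w A x l‖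

/-- **CORE**. -/
def S_CORE : Prop :=
  ∀ (r : ℕ) (C a l₁ : ℝ), 1 ≤ r → 0 < C → 0 < a → 0 ≤ l₁ → l₁ * GG r * a < 1 →
    ∃ ε : ℝ, 0 < ε ∧ ∃ M : ℝ, 0 < M ∧
      ∀ (V : Type) (N : V → V → Prop) (w : ℝ) (col : V → V → Fin r), Geo N w r col C a →
        ∀ (A : Finset V) (l : ℂ), l ∈ Om l₁ ε →
          Z N w A l ≠ 0 ∧ ‖deriv (Z N w A) l‖ ≤ M * (w * (A.card : ℝ)) * ‖Z N w A l‖

/-- **LOGD** (from `S_MAIN` to `S_CORE`). Induction on `#A`: for `y ∈ A` and `B = A \ {y}`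
(so `rem N A y = rem N B y`) `Z A = Z B (1 + l w W_B(y))` by `S_STEP` with `Q = {y}`, and
`1 + l w W_B(y) = Z A / Z B = W_B(y) / W_A(y)`, of norm at least `ω₀ / 2`. So
`logDeriv (Z A) - logDeriv (Z B) = w W_B(y) (1 + l DD_B(y)) / (1 + l w W_B(y))` has norm at most
`w (2 + ‖l‖ ‖W_B‖ ‖DD_B‖) 2 / ω₀` with `‖W_B‖ ‖DD_B‖ ≤ √2 · M √C`, `‖l‖ ≤ l₁ + ε`. -/
def S_LOGD : Prop := S_STEP → S_MAIN → S_CORE

/-! ## Finite gases: further inequalities -/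

/-- The moments of the number of points. -/
noncomputable def Mo {V : Type} (N : V → V → Prop) (w : ℝ) (A : Finset V) (j : ℕ) (l : ℝ) : ℝ :=
  ∑ I ∈ ind N A, (I.card : ℝ) ^ j * (l * w) ^ I.card

open Classical in
/-- The number of independent subsets of `A` with `k` elements. -/
noncomputable def cnt {V : Type} (N : V → V → Prop) (A : Finset V) (k : ℕ) : ℕ :=
  ((ind N A).filter (fun I => I.card = k)).card

/-- **GIN** (Ginibre's lower bound for the compressibility). Put `P(I) = (l w)^{#I}` and let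
`F(I) = w #{v ∈ A : N v u for no u ∈ I}` be the free volume. Counting pairs `(I, v ∈ I)` as pairs
`(J, v)` with `v` free for `J`: `∑ #I P = l ∑ F P`, `∑ #I (#I - 1) P = l ∑ #J F(J) P(J)` and
`∑ #I F(I) P(I) = l ∑_J ∑_{v free} w F(J ∪ {v}) P(J) ≥ l ∑ F² P - C ∑ #I P` since
`F(J ∪ {v}) ≥ F(J) - w #(nb N A v) ≥ F(J) - C`. With `E` the mean with weights `P`: the covariance
of `#I` and `#I - l F` is `E #I`, the mean of `#I - l F` is `0`, and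
`E (#I - l F)² ≤ (1 + l C) E #I`. Cauchy-Schwarz. -/
def S_GIN : Prop :=
  ∀ (V : Type) (N : V → V → Prop) (w C : ℝ) (A : Finset V), 0 < w → 0 ≤ C → (∀ x, N x x) →
    (∀ x y, N x y → N y x) → (∀ x : V, w * ((nb N A x).card : ℝ) ≤ C) →
    ∀ l : ℝ, 0 ≤ l →
      Mo N w A 1 l * Mo N w A 0 l ≤
        (Mo N w A 2 l * Mo N w A 0 l - Mo N w A 1 l ^ 2) * (1 + C * l)

/-- **DEL**: the pairs `(I, v ∈ I)` with `#I = k + 1` inject into the pairs `(J, v ∈ A)` with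
`#J = k`. -/
def S_DEL : Prop :=
  ∀ (V : Type) (N : V → V → Prop) (A : Finset V) (k : ℕ),
    (k + 1) * cnt N A (k + 1) ≤ A.card * cnt N A k

/-- **SUBD**: the integer points of `[0, n M L]^d` are covered by `M ^ d` translates of the integer
points of `[0, n L]^d` (since `⌊M u⌋ + 1 ≤ M (⌊u⌋ + 1)`), the relation `NB` is invariant under the
translations, and `Z(A ∪ B) ≤ Z(A) Z(B)` (the map `I ↦ (I ∩ A, I \ A)`). -/
def S_SUBD : Prop :=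
  ∀ (d : ℕ) (R L w : ℝ) (n M : ℕ), 0 < L → 0 ≤ w → 1 ≤ M → ∀ l : ℝ, 0 ≤ l →
    Mo (NB d R n) w (GB d (M * L) n) 0 l ≤ (Mo (NB d R n) w (GB d L n) 0 l) ^ (M ^ d)

end Pool.Agent.H288.HS
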