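import Pool.Agent.H288.HS.Stm

/-!
# Hard spheres: from the grid to the continuum, statements
-/

set_option autoImplicit false

open MeasureTheory Set Filter Topology

namespace Pool.Agent.H288.HS

/-- The ball of radius `R` in coordinates. -/
def Bs (d : ℕ) (R : ℝ) : Set (Fin d → ℝ) := {x | ∑ k, x k ^ 2 < R ^ 2}

/-- The ball of centre `u` and radius `R` in coordinates. -/
def Bc (d : ℕ) (u : Fin d → ℝ) (R : ℝ) : Set (Fin d → ℝ) := {x | ∑ k, (x k - u k) ^ 2 < R ^ 2}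

/-- The volume of the ball of radius `R`. -/
noncomputable def bv (d : ℕ) (R : ℝ) : ℝ := volume.real (Bs d R)

/-- The coefficients of the grand canonical partition function of the cube `[0, L]^d`. -/
noncomputable def zz (d : ℕ) (R L : ℝ) (k : ℕ) : ℝ :=
  ((k.factorial : ℝ))⁻¹ * (volume (Conf k d R L)).toReal

/-- The power series with the coefficients `z L k`, at complex activities. -/
noncomputable def ZC (z : ℝ → ℕ → ℝ) (L : ℝ) (l : ℂ) : ℂ := ∑' k : ℕ, (z L k : ℂ) * l ^ k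

/-- The moments. -/
noncomputable def ZM (z : ℝ → ℕ → ℝ) (L : ℝ) (j : ℕ) (l : ℝ) : ℝ :=
  ∑' k : ℕ, (k : ℝ) ^ j * z L k * l ^ k

/-- The properties of the coefficients `z L k = Z(Λ_L, k)` which are used in the thermodynamic
limit. -/
structure Fam (d : ℕ) (C : ℝ) (z : ℝ → ℕ → ℝ) : Prop where
  zero : ∀ L : ℝ, 0 < L → z L 0 = 1
  one : ∀ L : ℝ, 0 < L → z L 1 = L ^ d
  nonneg : ∀ L : ℝ, 0 < L → ∀ k : ℕ, 0 ≤ z L k
  del : ∀ L : ℝ, 0 < L → ∀ k : ℕ, ((k : ℝ) + 1) * z L (k + 1) ≤ L ^ d * z L k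
  mono : ∀ L L' : ℝ, 0 < L → L ≤ L' → ∀ k : ℕ, z L k ≤ z L' k
  sub : ∀ L : ℝ, 0 < L → ∀ M : ℕ, 1 ≤ M → ∀ l : ℝ, 0 ≤ l →
    ZM z (M * L) 0 l ≤ (ZM z L 0 l) ^ (M ^ d)
  gin : ∀ L : ℝ, 0 < L → ∀ l : ℝ, 0 ≤ l →
    ZM z L 1 l * ZM z L 0 l ≤ (ZM z L 2 l * ZM z L 0 l - ZM z L 1 l ^ 2) * (1 + C * l)

/-- The uniform zero-free region with the derivative bound. -/
def FreeR (d : ℕ) (z : ℝ → ℕ → ℝ) (l₁ ε M : ℝ) : Prop :=
  ∀ L : ℝ, 0 < L → ∀ l : ℂ, l ∈ Om l₁ ε →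
    ZC z L l ≠ 0 ∧ ‖deriv (ZC z L) l‖ ≤ M * L ^ d * ‖ZC z L l‖

/-! ## Part B: limits of grids -/

/-- **LIM** (the fine grid). The number of `k`-tuples of integer points is `k! * cnt`, and
the number of the integer points in the dilate by `n` of the bounded closed set
`{x : Fin k × Fin d → ℝ}` of the configurations, divided by `n^(k d)`, tends to its volume
(Mathlib: `tendsto_card_div_pow_atTop_volume` of `BoxIntegral/UnitPartition`), because its frontier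
is a null set: the frontier lies in the union of the hyperplanes `x i c = 0`, `x i c = L` and of the
sets `∑ c, (x i c - x j c)^2 = R^2`. -/
def S_LIM : Prop :=
  ∀ (d k : ℕ) (R L : ℝ), 1 ≤ d → 0 < R → 0 < L →
    Tendsto (fun n : ℕ => (wt d n) ^ k * (cnt (NB d R n) (GB d L n) k : ℝ)) atTop
      (𝓝 (zz d R L k))

/-- **NULL** (part of LIM): the frontier of the set of configurations is a null set (coordinates
`Fin k × Fin d → ℝ`). -/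
def S_NULL : Prop :=
  ∀ (d k : ℕ) (R L : ℝ), 1 ≤ d → 0 < R → 0 < L →
    volume (frontier {x : Fin k × Fin d → ℝ | (∀ i c, x (i, c) ∈ Set.Icc (0 : ℝ) L) ∧
      ∀ i j, i ≠ j → R ^ 2 ≤ ∑ c, (x (i, c) - x (j, c)) ^ 2}) = 0

/-- **SER** (dominated convergence for power series). -/
def S_SER : Prop :=
  ∀ (c : ℕ → ℕ → ℝ) (z : ℕ → ℝ) (B : ℝ), 0 ≤ B →
    (∀ k, Tendsto (fun n => c n k) atTop (𝓝 (z k))) →
    (∀ᶠ n in atTop, ∀ k, 0 ≤ c n k ∧ c n k ≤ B ^ k / (k.factorial : ℝ)) →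
    (∀ (j : ℕ) (l : ℂ), Tendsto (fun n => ∑' k : ℕ, (k : ℂ) ^ j * (c n k : ℂ) * l ^ k) atTop
      (𝓝 (∑' k : ℕ, (k : ℂ) ^ j * (z k : ℂ) * l ^ k))) ∧
    (∀ (j : ℕ) (l : ℝ), Tendsto (fun n => ∑' k : ℕ, (k : ℝ) ^ j * c n k * l ^ k) atTop
      (𝓝 (∑' k : ℕ, (k : ℝ) ^ j * z k * l ^ k))) ∧
    (∀ l : ℂ, Tendsto (fun n => deriv (fun t : ℂ => ∑' k : ℕ, (c n k : ℂ) * t ^ k) l) atTop
      (𝓝 (deriv (fun t : ℂ => ∑' k : ℕ, (z k : ℂ) * t ^ k) l)))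

/-- **SUM** (rewriting the finite partition functions as power series), with
`cnt N A k ≤ #A ^ k / k!`. -/
def S_SUM : Prop :=
  ∀ (V : Type) (N : V → V → Prop) (w : ℝ) (A : Finset V), 0 ≤ w →
    (∀ l : ℂ, Z N w A l = ∑' k : ℕ, ((w ^ k * (cnt N A k : ℝ) : ℝ) : ℂ) * l ^ k) ∧
    (∀ (j : ℕ) (l : ℝ), Mo N w A j l = ∑' k : ℕ, (k : ℝ) ^ j * (w ^ k * (cnt N A k : ℝ)) * l ^ k) ∧
    (∀ k : ℕ, 0 ≤ w ^ k * (cnt N A k : ℝ) ∧
      w ^ k * (cnt N A k : ℝ) ≤ (w * (A.card : ℝ)) ^ k / (k.factorial : ℝ))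

/-- **UP**: the measure of the grid neighbourhoods. The number of the integer points `z` with
`∑ z k ^ 2 < (n R)^2`, divided by `n^d`, tends to the volume of the ball (convex). -/
def S_UP : Prop :=
  ∀ (d : ℕ) (R δ : ℝ), 1 ≤ d → 0 < R → 0 < δ → ∀ᶠ n : ℕ in atTop, 0 < wt d n ∧
    ∀ (A : Finset (Fin d → ℤ)) (x : Fin d → ℤ),
      wt d n * ((nb (NB d R n) A x).card : ℝ) ≤ bv d R + δ

/-- **FAM** (from LIM, SER, SUM, UP, GIN, DEL, SUBD). -/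
def S_FAM : Prop := ∀ (d : ℕ) (R : ℝ), 1 ≤ d → 0 < R → Fam d (bv d R) (zz d R)

def S_FAMQ : Prop :=
  S_LIM → S_SER → S_SUM → S_UP → S_GIN → S_DEL → S_SUBD → S_FAM

/-- **FREE** (from LIM, SER, SUM, CORE). For small `δ` still `l₁ GG r (a + δ) < 1`; apply CORE with
`C + δ`, `a + δ`; for `l ∈ Om l₁ ε` pass to the limit `n → ∞` in
`‖deriv (Z_n) l‖ ≤ M w #A_n ‖Z_n l‖`, `w #A_n → L^d`, and in
`‖Z_n l‖ ≥ exp (- M w #A_n ε) ‖Z_n s‖ ≥ exp (- M w #A_n ε)` (integrate along the segment from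
`s`; `Z_n s ≥ 1` for real `s ≥ 0`), which gives `ZC ≠ 0`. -/
def S_FREE : Prop :=
  ∀ (d : ℕ) (R : ℝ) (r : ℕ) (C a l₁ : ℝ), 1 ≤ d → 0 < R → 1 ≤ r → 0 < C → 0 < a → 0 ≤ l₁ →
    l₁ * GG r * a < 1 → GeoLim d R r C a →
    ∃ ε : ℝ, 0 < ε ∧ ∃ M : ℝ, 0 < M ∧ FreeR d (zz d R) l₁ ε M

def S_FREEQ : Prop := S_LIM → S_SER → S_SUM → S_CORE → S_FREE

/-! ## Part C: the thermodynamic limit -/

/-- **PRESS** (existence of the pressure): `log ZM (L) ≤ ⌈L/m⌉^d log ZM (m)` for all `m > 0` by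
`sub` and `mono`; so the limsup is at most the infimum over `m`. -/
def S_PRESS : Prop :=
  ∀ (d : ℕ) (C : ℝ) (z : ℝ → ℕ → ℝ), 1 ≤ d → 0 ≤ C → Fam d C z → ∀ l : ℝ, 0 ≤ l →
    ∃ p : ℝ, Tendsto (fun L : ℝ => Real.log (ZM z L 0 l) / L ^ d) atTop (𝓝 p)

/-- **ANA** (analyticity of the pressure). On the disc of centre `s ∈ (0, l₁)` and radius `ε` the
analytic function `deriv ZC / ZC / L^d` is bounded by `M`; its Taylor coefficients `b_j(L)` at `s`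
are bounded by `M ε^{-j}`, and `log ZM(l)/L^d = log ZM(s)/L^d + Re ∑ b_j(L) (l-s)^{j+1}/(j+1)` for
real `l` near `s`. Take the limit along an ultrafilter `≤ atTop`
(`tendsto_tsum_of_dominated_convergence` holds for all filters). -/
def S_ANA : Prop :=
  ∀ (d : ℕ) (C : ℝ) (z : ℝ → ℕ → ℝ) (l₁ ε M : ℝ), 1 ≤ d → 0 ≤ C → 0 < l₁ → 0 < ε → 0 < M →
    Fam d C z → FreeR d z l₁ ε M → ∀ p : ℝ → ℝ,
    (∀ l : ℝ, 0 ≤ l → Tendsto (fun L : ℝ => Real.log (ZM z L 0 l) / L ^ d) atTop (𝓝 (p l))) →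
    ∀ s ∈ Set.Ioo 0 l₁, AnalyticAt ℝ p s

/-- **MONO**. In finite volume let `ρ_L(l) = ZM 1 / ZM 0 / L^d`. By `gin`, `l ↦ ρ_L(l) (1/l + C)`
is nondecreasing on `(0, ∞)` (its logarithmic derivative is
`(ZM2 ZM0 - ZM1²)/(l ZM1 ZM0) - 1/(l (1 + C l)) ≥ 0`), its limit at `0` is `1` by `one`; by `del`,
`ρ_L(l) ≤ l`. The function `l ↦ log ZM 0 / L^d` has the derivative `ρ_L(l)/l`, and it is convex in
`log l`; its limit is differentiable on `(0, l₁)`, so the derivatives converge (or: integrate the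
inequalities between `l` and `l'` and pass to the limit). -/
def S_MONO : Prop :=
  ∀ (d : ℕ) (C : ℝ) (z : ℝ → ℕ → ℝ) (l₁ : ℝ), 1 ≤ d → 0 ≤ C → 0 < l₁ → Fam d C z → ∀ p : ℝ → ℝ,
    (∀ l : ℝ, 0 ≤ l → Tendsto (fun L : ℝ => Real.log (ZM z L 0 l) / L ^ d) atTop (𝓝 (p l))) →
    (∀ s ∈ Set.Ioo 0 l₁, AnalyticAt ℝ p s) →
    (∀ s ∈ Set.Ioo 0 l₁, 1 ≤ deriv p s * (1 + C * s) ∧ deriv p s ≤ 1) ∧
    MonotoneOn (fun s => deriv p s * (1 + C * s)) (Set.Ioo 0 l₁)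

/-- **INV** (the inverse function). With `m(s) = deriv p s (1 + C s)` nondecreasing and `≥ 1`,
`ρ(s) = s deriv p s = m(s) s/(1 + C s)` has the derivative `≥ m(s)/(1+Cs)² > 0`,
`s/(1+Cs) ≤ ρ(s) ≤ s`; the inverse of an analytic function with nonzero derivative is analytic. -/
def S_INV : Prop :=
  ∀ (C l₁ : ℝ) (p : ℝ → ℝ), 0 ≤ C → 0 < l₁ → (∀ s ∈ Set.Ioo 0 l₁, AnalyticAt ℝ p s) →
    (∀ s ∈ Set.Ioo 0 l₁, 1 ≤ deriv p s * (1 + C * s) ∧ deriv p s ≤ 1) →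
    MonotoneOn (fun s => deriv p s * (1 + C * s)) (Set.Ioo 0 l₁) →
    StrictMonoOn (fun s => s * deriv p s) (Set.Ioo 0 l₁) ∧
    ∃ g : ℝ → ℝ, ∀ ρ ∈ Set.Ioo 0 (l₁ / (1 + C * l₁)),
      g ρ ∈ Set.Ioo 0 l₁ ∧ g ρ * deriv p (g ρ) = ρ ∧ AnalyticAt ℝ g ρ

/-- **CAN** (the canonical ensemble). Upper bound: `z L N s^N ≤ ZM 0 (s)`. Lower bound: choose
`s < s' < l₁`, `s'' ∈ (s', l₁)`. By the exponential Markov inequality, for large `L` the terms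
`z L n s'^n` with `n < ρ L^d` have a sum `≤ (s'/s)^{ρ L^d} ZM 0 (s) ≤ ZM 0 (s') / 4`, because
`p s + ρ log (s'/s) < p s'` (`ρ = s deriv p s < t deriv p t` for `t > s`), and the terms with
`n > ρ'' L^d`, `ρ'' > s'' deriv p s''`, similarly `≤ (s'/s'')^{ρ'' L^d} ZM 0 (s'') ≤ ZM 0 (s')/4`.
So some `n ∈ [ρ L^d, ρ'' L^d]` has `z L n s'^n ≥ ZM 0 (s') / (2 (ρ'' L^d + 1))`. By `del`,
`z L N ≥ (N / L^d)^{n - N} z L n` for `N ≤ n` (and a similar bound, or a slightly smaller `s`, for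
`N` slightly larger than `ρ L^d`). Then let `s'' → s`. -/
def S_CAN : Prop :=
  ∀ (d : ℕ) (C : ℝ) (z : ℝ → ℕ → ℝ) (l₁ : ℝ), 1 ≤ d → 0 ≤ C → 0 < l₁ → Fam d C z → ∀ p : ℝ → ℝ,
    (∀ l : ℝ, 0 ≤ l → Tendsto (fun L : ℝ => Real.log (ZM z L 0 l) / L ^ d) atTop (𝓝 (p l))) →
    (∀ s ∈ Set.Ioo 0 l₁, AnalyticAt ℝ p s) →
    (∀ s ∈ Set.Ioo 0 l₁, 0 < deriv p s) →
    StrictMonoOn (fun s => s * deriv p s) (Set.Ioo 0 l₁) →
    ∀ s ∈ Set.Ioo 0 l₁, 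
      (∀ᶠ q in thermo d (s * deriv p s), 0 < z q.2 q.1) ∧
      Tendsto (fun q : ℕ × ℝ => -(Real.log (z q.2 q.1)) / q.1) (thermo d (s * deriv p s))
        (𝓝 (Real.log s - p s / (s * deriv p s)))

/-! ## Part D: geometry of the balls -/

/-- **BV**: the volume of the ball in coordinates and in Euclidean space; scaling. -/
def S_BV : Prop :=
  ∀ (d : ℕ) (R : ℝ), 1 ≤ d → 0 < R →
    bv d R = volume.real (Metric.ball (0 : EuclideanSpace ℝ (Fin d)) R) ∧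
    bv d R = bv d 1 * R ^ d ∧ 0 < bv d 1

/-- **LENSG** (grid points in lenses, uniformly). If the lens of two balls of radius `R` at distance
at most `R` has volume at least `q`, the same holds for the grid, up to `δ`: the number of the
integer points in a set `S` is the volume of `{x : ⌊x⌋ ∈ S}`, which contains the `x` with
`|x| < n R - d` and `|x - v| < n R - d` when `S` is the lens of the balls of radius `n R` with
centres `0` and `v`; this is the lens with a smaller radius `ρ' = nR - d`, and it contains the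
image of the lens of radius `n R` under the homothety with centre `v / 2` and the factor
`1 - 2 d/(n R)` (if `|x| < nR`, then `|(1-τ) x + τ v/2| < (1-τ) nR + τ nR/2 = nR - τ nR/2`). So the
number is at least `(1 - 2d/(nR))^d n^d q`. -/
def S_LENSG : Prop :=
  ∀ (d : ℕ) (R q δ : ℝ), 1 ≤ d → 0 < R → 0 ≤ q → 0 < δ →
    (∀ u : Fin d → ℝ, ∑ k, u k ^ 2 < R ^ 2 → q ≤ volume.real (Bs d R ∩ Bc d u R)) →
    ∀ᶠ n : ℕ in atTop, ∀ x y : Fin d → ℤ, NB d R n x y →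
      q - δ ≤ wt d n * ({z : Fin d → ℤ | NB d R n x z ∧ NB d R n y z}.ncard : ℝ)

/-- **GEOQ** (reduction of `GeoLim` to a colouring of the displacements). -/
def S_GEOQ : Prop :=
  ∀ (d : ℕ) (R : ℝ) (r : ℕ) (q K : ℝ) (c : ℕ → (Fin d → ℤ) → Fin r), 1 ≤ d → 0 < R → 0 ≤ q →
    (∀ u : Fin d → ℝ, ∑ k, u k ^ 2 < R ^ 2 → q ≤ volume.real (Bs d R ∩ Bc d u R)) →
    (∀ᶠ n : ℕ in atTop, ∀ u v : Fin d → ℤ, ∑ k, (u k : ℝ) ^ 2 < (n * R) ^ 2 →
      ∑ k, (v k : ℝ) ^ 2 < (n * R) ^ 2 → c n u = c n v →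
      ∑ k, ((u k : ℝ) - (v k : ℝ)) ^ 2 < (n * R) ^ 2) →
    (∀ δ : ℝ, 0 < δ → ∀ᶠ n : ℕ in atTop, ∀ j : Fin r,
      K - δ ≤ wt d n * ({z : Fin d → ℤ | ∑ k, (z k : ℝ) ^ 2 < (n * R) ^ 2 ∧ c n z = j}.ncard : ℝ)) →
    GeoLim d R r (bv d R) (bv d R - (q + K) / 2)

/-- **CONV** (grid points of convex sets, from `tendsto_card_div_pow_atTop_volume` and
`Convex.addHaar_frontier`). -/
def S_CONV : Prop :=
  ∀ (d : ℕ) (s : Set (Fin d → ℝ)), 1 ≤ d → Convex ℝ s → MeasurableSet s →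
    Bornology.IsBounded s →
    Tendsto (fun n : ℕ => wt d n *
      ({z : Fin d → ℤ | (fun k => (z k : ℝ) / n) ∈ s}.ncard : ℝ)) atTop (𝓝 (volume.real s))

/-- **LENSD**: the lens contains the ball of radius `R/2` with centre `u/2`. -/
def S_LENSD : Prop :=
  ∀ (d : ℕ) (R : ℝ), 1 ≤ d → 0 < R → ∀ u : Fin d → ℝ, ∑ k, u k ^ 2 < R ^ 2 →
    bv d R / 2 ^ d ≤ volume.real (Bs d R ∩ Bc d u R)

/-- **LENS2**: by convexity in `t` of `|x - t u|`, the lens for `u` contains the lens for the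
multiple of `u` of length `R`; by rotation this is the lens for `(R, 0)`, of area
`4 ∫_{R/2}^R √(R² - x²) dx`. -/
def S_LENS2 : Prop :=
  ∀ R : ℝ, 0 < R → ∀ u : Fin 2 → ℝ, ∑ k, u k ^ 2 < R ^ 2 →
    R ^ 2 * (2 * Real.pi / 3 - √3 / 2) ≤ volume.real (Bs 2 R ∩ Bc 2 u R)

/-- **LENS3**: the volume of the lens for `(R, 0, 0)` is `2 ∫_{R/2}^R π (R² - x²) dx`. -/
def S_LENS3 : Prop :=
  ∀ R : ℝ, 0 < R → ∀ u : Fin 3 → ℝ, ∑ k, u k ^ 2 < R ^ 2 →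
    5 / 12 * Real.pi * R ^ 3 ≤ volume.real (Bs 3 R ∩ Bc 3 u R)

/-- **COL2** (the six sectors). For `z = (x, y)` take the three signs `0 ≤ y`, `0 ≤ √3 x - y`,
`0 ≤ √3 x + y`; only six of the eight combinations occur. Two vectors `u, v` of the same sector are
at an angle at most 60 degrees, `|u| |v| ≤ 2 u·v` (with the generators `e₁, e₂` of the closed
sector, `u = α e₁ + β e₂`, `v = α' e₁ + β' e₂`, all coefficients of the polynomial
`(2 u·v)² - |u|² |v|²` are nonnegative), so `|u - v|² ≤ |u|² + |v|² - |u||v| ≤ max (|u|, |v|)²`.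
The sectors (as subsets of `ℝ²`, intersected with the ball) are convex and measurable, so `S_CONV`
gives the limit of the counts, and they have the same area `π R² / 6`, because they are images
of each other under the rotation by 60 degrees (a linear map of determinant 1), up to boundaries. -/
def S_COL2 : Prop :=
  ∃ c : (Fin 2 → ℤ) → Fin 6,
    (∀ (ρ : ℝ) (u v : Fin 2 → ℤ), ∑ k, (u k : ℝ) ^ 2 < ρ ^ 2 → ∑ k, (v k : ℝ) ^ 2 < ρ ^ 2 →
      c u = c v → ∑ k, ((u k : ℝ) - (v k : ℝ)) ^ 2 < ρ ^ 2) ∧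
    (∀ R δ : ℝ, 0 < R → 0 < δ → ∀ᶠ n : ℕ in atTop, ∀ j : Fin 6,
      Real.pi * R ^ 2 / 6 - δ ≤
        wt 2 n * ({z : Fin 2 → ℤ | ∑ k, (z k : ℝ) ^ 2 < (n * R) ^ 2 ∧ c z = j}.ncard : ℝ))

/-- **COL3** (the 24 cones): `c z` encodes the first index `i` at which `|z i|` is maximal, and the
three bits `0 ≤ z k`. For `u, v` in the same cone `|u| |v| ≤ 2 u·v`: replacing `z k` by `|z k|` we
may assume that all coordinates are nonnegative and `i = 0`; the function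
`F(u) = 2 u·v - |u||v|` is superadditive and homogeneous, and the cone `{u : u 0 ≥ u 1 ≥ 0,
u 0 ≥ u 2 ≥ 0}` is generated by `(1,0,0), (1,1,0), (1,1,1), (1,0,1)`; so it is enough to check
`2 u·v ≥ |u||v|` for these four vectors (equality for `(1,1,0)` and `(1,0,1)`). Then
`|u - v|² ≤ |u|² + |v|² - |u||v| ≤ max (|u|, |v|)²`. The cones intersected with the ball are convex
and measurable (`S_CONV`), and they have the same volume `(4/3) π R³ / 24`, because they are images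
of each other under permutations and sign changes of the coordinates, up to boundaries. -/
def S_COL3 : Prop :=
  ∃ c : (Fin 3 → ℤ) → Fin 24,
    (∀ (ρ : ℝ) (u v : Fin 3 → ℤ), ∑ k, (u k : ℝ) ^ 2 < ρ ^ 2 → ∑ k, (v k : ℝ) ^ 2 < ρ ^ 2 →
      c u = c v → ∑ k, ((u k : ℝ) - (v k : ℝ)) ^ 2 < ρ ^ 2) ∧
    (∀ R δ : ℝ, 0 < R → 0 < δ → ∀ᶠ n : ℕ in atTop, ∀ j : Fin 24,
      Real.pi * R ^ 3 / 18 - δ ≤
        wt 3 n * ({z : Fin 3 → ℤ | ∑ k, (z k : ℝ) ^ 2 < (n * R) ^ 2 ∧ c z = j}.ncard : ℝ))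

/-- **COLD** (small cubes): `c n z` encodes the vector of the `⌊z k / (n s)⌋`, `s = R / (2 (d + 1))`,
truncated to a finite range `[-m, m]`; two vectors of the ball of radius `n R` with the same colour
satisfy `|u k - v k| < n s`, so `|u - v|² ≤ d n² s² < (n R)²`. -/
def S_COLD : Prop :=
  ∀ (d : ℕ) (R : ℝ), 1 ≤ d → 0 < R → ∃ r : ℕ, 1 ≤ r ∧ ∃ c : ℕ → (Fin d → ℤ) → Fin r,
    ∀ᶠ n : ℕ in atTop, ∀ u v : Fin d → ℤ, ∑ k, (u k : ℝ) ^ 2 < (n * R) ^ 2 →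
      ∑ k, (v k : ℝ) ^ 2 < (n * R) ^ 2 → c n u = c n v →
      ∑ k, ((u k : ℝ) - (v k : ℝ)) ^ 2 < (n * R) ^ 2

/-- **GGE**: `((r+1)/r) ((r+2)/(r+1))^{r+2} ≥ e`, since `(1 + 1/n)^{n+1} ≥ e`. -/
def S_GGE : Prop := ∀ r : ℕ, 1 ≤ r → 0 < GG r ∧ GG r ≤ Real.exp (-1)

/-- **IND** (assembly of `S_MAIN`). Take `M, ε` from CONST, `η = 2ε + l₁ 2 M √C ε`,
`ω₀ = exp (-(l₁ C)) / 2`. Strong induction on `#A`: for all `l ∈ Om l₁ ε`, `Z A l ≠ 0` and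
`‖W A x‖ ‖DD A x‖² ≤ M² w #(nb N A x)` for all `x`. Nonvanishing: `A = ∅` is trivial; otherwise
take `y ∈ A`, `B = A \ {y}`, `Z A = Z B (1 + w l W_B(y))` (STEP with `Q = {y}`), and by NEAR
`‖l W_B(y) - t‖ ≤ η` with `t ≥ 0`, so `‖1 + w l W‖ ≥ 1 - w η ≥ 1 - C η > 0` (`w ≤ C` by `vol` for
`{y}`). Derivative bound: if `nb N A x = ∅` then `rem N A x = A` and `DD = 0`. Otherwise for
`y ∈ cl k` the region `lev (k+1)` does not contain `y`, so it is smaller than `A`; apply NEAR to it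
and `y`, and ONE to `col` and to the reversed colouring; by PAIR one of the two has
`EE ≤ a w #(nb N A x)`. With `ω = w #(nb N A x) ≤ C`: `2 ω ≤ 2 √C √ω` and
`√(‖l‖ GG r M² a ω) ≤ √((l₁+ε) GG r a) M √ω`. The last two claims of MAIN follow from NEAR. -/
def S_INDQ : Prop := S_STEP → S_PAIR → S_ONE → S_NEAR → S_CONST → S_MAIN

end Pool.Agent.H288.HS
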